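import Mathlib

/-!
# EXR / LatR: an integer vector is a multiple of the first row of a unimodular matrix

PROOF.  Smith normal form of the submodule spanned by `a`: a basis `b` of `ℤ^n` with `a` a multiple of one of its vectors.
-/

set_option autoImplicit false

namespace Pool.Agent.EXR

theorem prim_row {m : ℕ} (a : Fin (m + 1) → ℤ) (ha : a ≠ 0) :
    ∃ (g : ℤ) (B B' : Matrix (Fin (m + 1)) (Fin (m + 1)) ℤ), g ≠ 0 ∧ B * B' = 1 ∧
      ∀ j, a j = g * B 0 j := by
  classical
  obtain ⟨k, S⟩ := Submodule.smithNormalForm (Pi.basisFun ℤ (Fin (m + 1)))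
    (Submodule.span ℤ {a})
  have hk : k = 1 := by
    have h1 : Module.finrank ℤ (Submodule.span ℤ {a}) = 1 := by
      rw [← (LinearEquiv.toSpanNonzeroSingleton ℤ _ a ha).finrank_eq, Module.finrank_self]
    have h2 := Module.finrank_eq_card_basis S.bN
    rw [Fintype.card_fin] at h2
    omega
  subst hk
  have haN : a ∈ Submodule.span ℤ {a} := Submodule.mem_span_singleton_self a
  obtain ⟨c, hc⟩ : ∃ c : ℤ, a = c • ((S.bN 0 : Submodule.span ℤ {a}) : Fin (m + 1) → ℤ) := by
    refine ⟨S.bN.repr ⟨a, haN⟩ 0, ?_⟩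
    have h := congrArg Subtype.val (S.bN.sum_repr ⟨a, haN⟩)
    rw [Fin.sum_univ_one] at h
    exact h.symm
  rw [S.snf 0, smul_smul] at hc
  set b := S.bM.reindex (Equiv.swap (S.f 0) 0) with hb
  have hb0 : b 0 = S.bM (S.f 0) := by
    rw [hb, Module.Basis.reindex_apply, Equiv.symm_swap, Equiv.swap_apply_right]
  refine ⟨c * S.a 0, ((Pi.basisFun ℤ (Fin (m + 1))).toMatrix b).transpose,
    (b.toMatrix (Pi.basisFun ℤ (Fin (m + 1)))).transpose, ?_, ?_, ?_⟩
  · intro h0
    rw [h0, zero_smul] at hc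
    exact ha hc
  · rw [← Matrix.transpose_mul, Module.Basis.toMatrix_mul_toMatrix_flip, Matrix.transpose_one]
  · intro j
    rw [Matrix.transpose_apply, Module.Basis.toMatrix_apply, hb0]
    simpa using congrFun hc j

end Pool.Agent.EXR
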