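import Mathlib

/-!
# EXR / RootE: `root_loc` with the explicit constant `f0`

`F(I T β + ξ) / ((I T)^(d-1) μ) = ∑ c_j ξ_j - f0 + O((1 + ‖ξ‖)^2 / T)` for `‖ξ‖ ≤ T`, where
`f0 = - F_{d-1}(β) / μ`.  Separation and the precise form follow by solving for `ξ_0`; existence by
the minimum principle on a disc around `f0 / c_0`.
-/

set_option autoImplicit false

namespace Pool.Agent.EXR

open MvPolynomial Filter

namespace RootAux

variable {k : Subfield ℂ}

theorem aeval_scale {n i : ℕ} {P : MvPolynomial (Fin n) k} (hP : P.IsHomogeneous i) (s : ℂ)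
    (y : Fin n → ℂ) : aeval (fun j => s * y j) P = s ^ i * aeval y P := by
  rw [aeval_def, aeval_def, eval₂_eq', eval₂_eq', Finset.mul_sum]
  refine Finset.sum_congr rfl fun d hd => ?_
  have h1 : ∑ j, d j = i := by
    have h2 := hP (mem_support_iff.mp hd)
    rw [← h2, Finsupp.weight_apply, Finsupp.sum_fintype]
    · simp
    · simp
  rw [Finset.prod_congr rfl (fun j _ => mul_pow s (y j) (d j)), Finset.prod_mul_distrib,
    Finset.prod_pow_eq_pow_sum, h1]
  ring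

theorem lip_of {n : ℕ} {b : Fin n → ℂ} {P : MvPolynomial (Fin n) k} {K : ℝ}
    (h : ∀ y : Fin n → ℂ, ‖y‖ ≤ 1 →
      ‖aeval (b + y) P - aeval b P - ∑ j, aeval b (pderiv j P) * y j‖ ≤ K * ‖y‖ ^ 2)
    (hK : 0 ≤ K) (y : Fin n → ℂ) (hy : ‖y‖ ≤ 1) :
    ‖aeval (b + y) P - aeval b P‖ ≤ (K + ∑ j, ‖aeval b (pderiv j P)‖) * ‖y‖ := by
  have h1 := h y hy
  have h2 : ‖∑ j, aeval b (pderiv j P) * y j‖ ≤ (∑ j, ‖aeval b (pderiv j P)‖) * ‖y‖ := by
    rw [Finset.sum_mul]
    refine norm_sum_le_of_le _ fun j _ => ?_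
    rw [norm_mul]
    exact mul_le_mul_of_nonneg_left (norm_le_pi_norm y j) (norm_nonneg _)
  have h3 : K * ‖y‖ ^ 2 ≤ K * ‖y‖ := by
    refine mul_le_mul_of_nonneg_left ?_ hK
    have := norm_nonneg y
    nlinarith
  have h4 : aeval (b + y) P - aeval b P = (aeval (b + y) P - aeval b P -
      ∑ j, aeval b (pderiv j P) * y j) + ∑ j, aeval b (pderiv j P) * y j := by ring
  rw [h4]
  refine (norm_add_le _ _).trans ?_
  rw [add_mul]
  linarith

theorem taylor {n : ℕ} (b : Fin n → ℂ) (P : MvPolynomial (Fin n) k) :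
    ∃ K : ℝ, 0 ≤ K ∧ ∀ y : Fin n → ℂ, ‖y‖ ≤ 1 →
      ‖aeval (b + y) P - aeval b P - ∑ j, aeval b (pderiv j P) * y j‖ ≤ K * ‖y‖ ^ 2 := by
  induction P using MvPolynomial.induction_on with
  | C a =>
    refine ⟨0, le_rfl, fun y _ => ?_⟩
    simp
  | add p q hp hq =>
    obtain ⟨K, hK, hp⟩ := hp
    obtain ⟨L, hL, hq⟩ := hq
    refine ⟨K + L, by positivity, fun y hy => ?_⟩
    have e : aeval (b + y) (p + q) - aeval b (p + q) - ∑ j, aeval b (pderiv j (p + q)) * y j =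
        (aeval (b + y) p - aeval b p - ∑ j, aeval b (pderiv j p) * y j) +
        (aeval (b + y) q - aeval b q - ∑ j, aeval b (pderiv j q) * y j) := by
      simp only [map_add, add_mul, Finset.sum_add_distrib]
      ring
    rw [e, add_mul]
    exact (norm_add_le _ _).trans (add_le_add (hp y hy) (hq y hy))
  | mul_X p i hp =>
    obtain ⟨K, hK, hp⟩ := hp
    have hl := lip_of hp hK
    set L : ℝ := K + ∑ j, ‖aeval b (pderiv j p)‖ with hL
    have hL0 : 0 ≤ L := by positivity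
    refine ⟨K * ‖b i‖ + L, by positivity, fun y hy => ?_⟩
    have e : aeval (b + y) (p * X i) - aeval b (p * X i) -
        ∑ j, aeval b (pderiv j (p * X i)) * y j =
        (aeval (b + y) p - aeval b p - ∑ j, aeval b (pderiv j p) * y j) * b i +
        (aeval (b + y) p - aeval b p) * y i := by
      have e1 : ∑ j, aeval b (pderiv j (p * X i)) * y j =
          (∑ j, aeval b (pderiv j p) * y j) * b i + aeval b p * y i := by
        have e2 : ∀ j, aeval b (pderiv j (p * X i)) * y j =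
            aeval b (pderiv j p) * y j * b i + (if j = i then aeval b p * y i else 0) := by
          intro j
          rw [pderiv_mul, pderiv_X, map_add, map_mul, map_mul, aeval_X]
          by_cases h : j = i
          · subst h
            simp
            ring
          · rw [Pi.single_eq_of_ne' h]
            simp [h]
            ring
        rw [Finset.sum_congr rfl (fun j _ => e2 j), Finset.sum_add_distrib, Finset.sum_mul,
          Finset.sum_ite_eq' Finset.univ i]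
        simp
      rw [e1]
      simp only [map_mul, aeval_X, Pi.add_apply]
      ring
    rw [e]
    refine (norm_add_le _ _).trans ?_
    rw [norm_mul, norm_mul, add_mul]
    refine add_le_add ?_ ?_
    · have := mul_le_mul_of_nonneg_right (hp y hy) (norm_nonneg (b i))
      linarith
    · have h1 := hl y hy
      have h2 := norm_le_pi_norm y i
      calc _ ≤ (L * ‖y‖) * ‖y‖ :=
            mul_le_mul h1 h2 (norm_nonneg _) (by positivity)
        _ = _ := by ring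

theorem bound {n : ℕ} (b : Fin n → ℂ) (P : MvPolynomial (Fin n) k) :
    ∃ K : ℝ, 0 ≤ K ∧ ∀ y : Fin n → ℂ, ‖y‖ ≤ 1 → ‖aeval (b + y) P - aeval b P‖ ≤ K * ‖y‖ := by
  obtain ⟨K, hK, h⟩ := taylor b P
  exact ⟨_, by positivity, lip_of h hK⟩

theorem expand {n : ℕ} (d : ℕ) (Fc : ℕ → MvPolynomial (Fin n) k)
    (hFc : ∀ i, (Fc i).IsHomogeneous i) (b c : Fin n → ℂ) (μ : ℂ) (hμ : μ ≠ 0)
    (h0 : aeval b (Fc (d + 1)) = 0) (hd : ∀ j, aeval b (pderiv j (Fc (d + 1))) = μ * c j) :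
    ∃ K : ℝ, 0 ≤ K ∧ ∀ s : ℂ, 1 ≤ ‖s‖ → ∀ ξ : Fin n → ℂ, ‖ξ‖ ≤ ‖s‖ →
      ‖aeval (fun j => s * b j + ξ j) (∑ i ∈ Finset.range (d + 2), Fc i) / (s ^ d * μ) -
        (∑ j, c j * ξ j + aeval b (Fc d) / μ)‖ ≤ K * (1 + ‖ξ‖) ^ 2 / ‖s‖ := by
  obtain ⟨K3, hK3, h3⟩ := taylor b (Fc (d + 1))
  obtain ⟨K2, hK2, h2⟩ := bound b (Fc d)
  have hb : ∀ i, ∃ K : ℝ, 0 ≤ K ∧ ∀ y : Fin n → ℂ, ‖y‖ ≤ 1 → ‖aeval (b + y) (Fc i)‖ ≤ K := by
    intro i
    obtain ⟨K, hK, h⟩ := bound b (Fc i)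
    refine ⟨K + ‖aeval b (Fc i)‖, by positivity, fun y hy => ?_⟩
    have e : aeval (b + y) (Fc i) = (aeval (b + y) (Fc i) - aeval b (Fc i)) + aeval b (Fc i) := by
      ring
    rw [e]
    refine (norm_add_le _ _).trans (add_le_add ((h y hy).trans ?_) le_rfl)
    have := mul_le_mul_of_nonneg_left hy hK
    linarith
  choose B hB0 hB using hb
  have hμ' : 0 < ‖μ‖ := norm_pos_iff.mpr hμ
  refine ⟨(∑ i ∈ Finset.range d, B i + K2 + K3) / ‖μ‖, ?_, ?_⟩
  · have : 0 ≤ ∑ i ∈ Finset.range d, B i := Finset.sum_nonneg fun i _ => hB0 i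
    positivity
  intro s hs ξ hξ
  have hs0 : 0 < ‖s‖ := by linarith
  have hs1 : s ≠ 0 := norm_pos_iff.mp hs0
  set y : Fin n → ℂ := fun j => ξ j / s with hy
  have hyn : ‖y‖ = ‖ξ‖ / ‖s‖ := by
    have e : y = s⁻¹ • ξ := by
      funext j
      simp only [hy, Pi.smul_apply, smul_eq_mul]
      rw [div_eq_inv_mul]
    rw [e, norm_smul, norm_inv, div_eq_inv_mul]
  have hy1 : ‖y‖ ≤ 1 := by
    rw [hyn]
    exact div_le_one_of_le₀ hξ hs0.le
  have hx : (fun j => s * b j + ξ j) = fun j => s * (b + y) j := by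
    funext j
    simp only [Pi.add_apply, hy]
    field_simp
  have hsum : aeval (fun j => s * b j + ξ j) (∑ i ∈ Finset.range (d + 2), Fc i) =
      ∑ i ∈ Finset.range d, s ^ i * aeval (b + y) (Fc i) + s ^ d * aeval (b + y) (Fc d) +
        s ^ (d + 1) * aeval (b + y) (Fc (d + 1)) := by
    rw [hx, map_sum, Finset.sum_congr rfl (fun i _ => aeval_scale (hFc i) s (b + y)),
      Finset.sum_range_succ, Finset.sum_range_succ]
  have hlin : ∑ j, aeval b (pderiv j (Fc (d + 1))) * y j = μ * (∑ j, c j * ξ j) / s := by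
    rw [Finset.mul_sum, Finset.sum_div]
    refine Finset.sum_congr rfl fun j _ => ?_
    rw [hd j]
    simp only [hy]
    ring
  have e : aeval (fun j => s * b j + ξ j) (∑ i ∈ Finset.range (d + 2), Fc i) / (s ^ d * μ) -
      (∑ j, c j * ξ j + aeval b (Fc d) / μ) =
      (∑ i ∈ Finset.range d, s ^ i * aeval (b + y) (Fc i)) / (s ^ d * μ) +
      (aeval (b + y) (Fc d) - aeval b (Fc d)) / μ +
      s * (aeval (b + y) (Fc (d + 1)) - aeval b (Fc (d + 1)) -
        ∑ j, aeval b (pderiv j (Fc (d + 1))) * y j) / μ := by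
    rw [hsum, hlin, h0]
    field_simp
    ring
  rw [e]
  have b1 : ‖(∑ i ∈ Finset.range d, s ^ i * aeval (b + y) (Fc i)) / (s ^ d * μ)‖ ≤
      (∑ i ∈ Finset.range d, B i) / ‖μ‖ / ‖s‖ := by
    rw [norm_div, norm_mul, norm_pow]
    have t1 : ‖∑ i ∈ Finset.range d, s ^ i * aeval (b + y) (Fc i)‖ * ‖s‖ ≤
        ‖s‖ ^ d * ∑ i ∈ Finset.range d, B i := by
      rw [Finset.mul_sum, mul_comm]
      refine (mul_le_mul_of_nonneg_left (norm_sum_le _ _) hs0.le).trans ?_
      rw [Finset.mul_sum]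
      refine Finset.sum_le_sum fun i hi => ?_
      rw [Finset.mem_range] at hi
      rw [norm_mul, norm_pow, ← mul_assoc, ← pow_succ']
      exact mul_le_mul (pow_le_pow_right₀ hs (by omega)) (hB i y hy1) (norm_nonneg _)
        (by positivity)
    rw [div_div, div_le_div_iff₀ (by positivity) (by positivity)]
    nlinarith [mul_le_mul_of_nonneg_right t1 hμ'.le]
  have b2 : ‖(aeval (b + y) (Fc d) - aeval b (Fc d)) / μ‖ ≤ K2 / ‖μ‖ * ‖ξ‖ / ‖s‖ := by
    rw [norm_div]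
    have := h2 y hy1
    rw [hyn] at this
    calc _ ≤ (K2 * (‖ξ‖ / ‖s‖)) / ‖μ‖ := div_le_div_of_nonneg_right this hμ'.le
      _ = _ := by ring
  have b3 : ‖s * (aeval (b + y) (Fc (d + 1)) - aeval b (Fc (d + 1)) -
        ∑ j, aeval b (pderiv j (Fc (d + 1))) * y j) / μ‖ ≤ K3 / ‖μ‖ * ‖ξ‖ ^ 2 / ‖s‖ := by
    rw [norm_div, norm_mul]
    have := h3 y hy1
    rw [hyn] at this
    calc _ ≤ (‖s‖ * (K3 * (‖ξ‖ / ‖s‖) ^ 2)) / ‖μ‖ :=
          div_le_div_of_nonneg_right (mul_le_mul_of_nonneg_left this hs0.le) hμ'.le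
      _ = _ := by field_simp
  refine (norm_add₃_le).trans ((add_le_add_three b1 b2 b3).trans ?_)
  have hB' : 0 ≤ ∑ i ∈ Finset.range d, B i := Finset.sum_nonneg fun i _ => hB0 i
  have hn := norm_nonneg ξ
  rw [← add_div, ← add_div]
  refine div_le_div_of_nonneg_right ?_ hs0.le
  have q1 : 0 ≤ (∑ i ∈ Finset.range d, B i) / ‖μ‖ := by positivity
  have q2 : 0 ≤ K2 / ‖μ‖ := by positivity
  have q3 : 0 ≤ K3 / ‖μ‖ := by positivity
  rw [add_div, add_div]
  have r1 : 1 ≤ (1 + ‖ξ‖) ^ 2 := by nlinarith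
  have r2 : ‖ξ‖ ≤ (1 + ‖ξ‖) ^ 2 := by nlinarith
  have r3 : ‖ξ‖ ^ 2 ≤ (1 + ‖ξ‖) ^ 2 := by nlinarith
  nlinarith [mul_le_mul_of_nonneg_left r1 q1, mul_le_mul_of_nonneg_left r2 q2,
    mul_le_mul_of_nonneg_left r3 q3]

theorem diff_aeval {n : ℕ} {x : ℂ → Fin n → ℂ} (hx : ∀ j, Differentiable ℂ (fun z => x z j))
    (P : MvPolynomial (Fin n) k) : Differentiable ℂ (fun z => aeval (x z) P) := by
  induction P using MvPolynomial.induction_on with
  | C a => simp
  | add p q hp hq =>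
    simp only [map_add]
    exact hp.add hq
  | mul_X p i hp =>
    simp only [map_mul, aeval_X]
    exact hp.mul (hx i)

end RootAux

theorem root_locE {m : ℕ} (k : Subfield ℂ) (d : ℕ) (hd1 : 1 ≤ d)
    (Fc : ℕ → MvPolynomial (Fin (m + 1)) k)
    (hFc : ∀ i, (Fc i).IsHomogeneous i) (β : Fin (m + 1) → ℝ) (c : Fin (m + 1) → ℝ) (μ : ℂ)
    (hμ : μ ≠ 0) (h0 : aeval (fun j => (β j : ℂ)) (Fc d) = 0)
    (hd : ∀ j, aeval (fun j => (β j : ℂ)) (pderiv j (Fc d)) = μ * (c j : ℂ)) (hc0 : c 0 ≠ 0)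
    (f0 : ℂ) (hf0 : f0 = -(aeval (fun j => (β j : ℂ)) (Fc (d - 1)) / μ)) :
    ∃ (ε : ℝ), 0 < ε ∧
      (∀ᶠ T : ℕ in atTop, ∃ x : Fin (m + 1) → ℂ,
        aeval x (∑ i ∈ Finset.range (d + 1), Fc i) = 0 ∧
        (∀ j : Fin m, x j.succ = Complex.I * (T : ℂ) * (β j.succ : ℂ)) ∧
        ‖x 0 - Complex.I * (T : ℂ) * (β 0 : ℂ)‖ ≤ ε * T / 2) ∧
      (∀ᶠ T : ℕ in atTop, ∀ x : Fin (m + 1) → ℂ,
        aeval x (∑ i ∈ Finset.range (d + 1), Fc i) = 0 →
        (∀ j : Fin m, ‖x j.succ - Complex.I * (T : ℂ) * (β j.succ : ℂ)‖ ≤ √(T : ℝ)) →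
        ‖x 0 - Complex.I * (T : ℂ) * (β 0 : ℂ)‖ ≤ ε * T →
        ‖x 0 - Complex.I * (T : ℂ) * (β 0 : ℂ)‖ ≤ ε * T / 2) ∧
      (∀ C δ : ℝ, 0 < δ → ∀ᶠ T : ℕ in atTop, ∀ x : Fin (m + 1) → ℂ,
        aeval x (∑ i ∈ Finset.range (d + 1), Fc i) = 0 →
        (∀ j : Fin m, ‖x j.succ - Complex.I * (T : ℂ) * (β j.succ : ℂ)‖ ≤ C * Real.log T) →
        ‖x 0 - Complex.I * (T : ℂ) * (β 0 : ℂ)‖ ≤ ε * T →
        ‖∑ j, (c j : ℂ) * x j - f0‖ ≤ δ) := by
  obtain ⟨e, rfl⟩ : ∃ e, d = e + 1 := ⟨d - 1, by omega⟩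
  set b : Fin (m + 1) → ℂ := fun j => (β j : ℂ) with hb
  rw [Nat.add_sub_cancel] at hf0
  obtain ⟨K, hK0, hK⟩ := RootAux.expand e Fc hFc b (fun j => (c j : ℂ)) μ hμ h0 hd
  -- Euler
  have hcβ : ∑ j, (c j : ℂ) * (β j : ℂ) = 0 := by
    have h1 := congrArg (aeval b) (hFc (e + 1)).sum_X_mul_pderiv
    rw [map_nsmul, h0, smul_zero, map_sum] at h1
    have h2 : μ * ∑ j, (c j : ℂ) * (β j : ℂ) = 0 := by
      rw [← h1, Finset.mul_sum]
      refine Finset.sum_congr rfl fun j _ => ?_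
      rw [map_mul, aeval_X, hd j]
      simp only [hb]
      ring
    exact (mul_eq_zero.mp h2).resolve_left hμ
  set C1 : ℝ := ∑ j : Fin m, |c j.succ| with hC1
  have hC10 : 0 ≤ C1 := Finset.sum_nonneg fun _ _ => abs_nonneg _
  have ha : 0 < |c 0| := abs_pos.mpr hc0
  set ε : ℝ := min 1 (|c 0| / (6 * (K + 1))) with hε
  have hε0 : 0 < ε := lt_min one_pos (by positivity)
  have hε1 : ε ≤ 1 := min_le_left _ _
  have hε2 : 3 * K * ε ≤ |c 0| / 2 := by
    have h1 : ε ≤ |c 0| / (6 * (K + 1)) := min_le_right _ _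
    have h2 : 3 * K * ε ≤ 3 * K * (|c 0| / (6 * (K + 1))) :=
      mul_le_mul_of_nonneg_left h1 (by positivity)
    refine h2.trans ?_
    rw [mul_div_assoc', div_le_div_iff₀ (by positivity) (by positivity)]
    nlinarith
  -- the main estimate
  have hmain : ∀ T : ℕ, 1 ≤ T → ∀ x : Fin (m + 1) → ℂ,
      aeval x (∑ i ∈ Finset.range (e + 1 + 1), Fc i) = 0 → ∀ B : ℝ, 0 ≤ B → B ≤ T →
      (∀ j : Fin m, ‖x j.succ - Complex.I * (T : ℂ) * (β j.succ : ℂ)‖ ≤ B) →
      ‖x 0 - Complex.I * (T : ℂ) * (β 0 : ℂ)‖ ≤ ε * T →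
      |c 0| / 2 * ‖x 0 - Complex.I * (T : ℂ) * (β 0 : ℂ)‖ ≤
        ‖f0‖ + C1 * B + 3 * K * (1 + B ^ 2) / T ∧
      ‖∑ j, (c j : ℂ) * x j - f0‖ ≤
        K * (1 + (‖x 0 - Complex.I * (T : ℂ) * (β 0 : ℂ)‖ + B)) ^ 2 / T := by
    intro T hT x hx B hB0 hBT hxj hx0
    have hTr : (1 : ℝ) ≤ T := by exact_mod_cast hT
    have hT0 : (0 : ℝ) < T := by linarith
    set s : ℂ := Complex.I * (T : ℂ) with hs
    have hsn : ‖s‖ = T := by rw [hs, norm_mul, Complex.norm_I, one_mul, Complex.norm_natCast]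
    set ξ : Fin (m + 1) → ℂ := fun j => x j - s * (β j : ℂ) with hξ
    set z : ℝ := ‖x 0 - s * (β 0 : ℂ)‖ with hz
    have hz0 : 0 ≤ z := norm_nonneg _
    have hξn : ‖ξ‖ ≤ z + B := by
      rw [pi_norm_le_iff_of_nonneg (by positivity)]
      intro j
      refine Fin.cases ?_ (fun i => ?_) j
      · exact le_add_of_nonneg_right hB0
      · exact (hxj i).trans (le_add_of_nonneg_left hz0)
    have hξT : ‖ξ‖ ≤ ‖s‖ := by
      rw [hsn, pi_norm_le_iff_of_nonneg hT0.le]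
      intro j
      refine Fin.cases ?_ (fun i => ?_) j
      · refine hx0.trans ?_
        nlinarith
      · exact (hxj i).trans hBT
    have h1 := hK s (by rw [hsn]; exact hTr) ξ hξT
    have hxe : (fun j => s * b j + ξ j) = x := by
      funext j
      simp only [hξ, hb]
      ring
    have hsum : ∑ j, (c j : ℂ) * ξ j = ∑ j, (c j : ℂ) * x j := by
      have h2 : ∑ j, (c j : ℂ) * ξ j = ∑ j, (c j : ℂ) * x j - s * ∑ j, (c j : ℂ) * (β j : ℂ) := by
        rw [Finset.mul_sum, ← Finset.sum_sub_distrib]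
        refine Finset.sum_congr rfl fun j _ => ?_
        simp only [hξ]
        ring
      rw [h2, hcβ, mul_zero, sub_zero]
    rw [hxe, hx, zero_div, hsn] at h1
    have h2 : (0 : ℂ) - (∑ j, (c j : ℂ) * ξ j + aeval b (Fc e) / μ) =
        -(∑ j, (c j : ℂ) * ξ j - f0) := by
      rw [hf0]
      ring
    rw [h2, norm_neg] at h1
    have h3 : ‖∑ j, (c j : ℂ) * ξ j - f0‖ ≤ K * (1 + (z + B)) ^ 2 / T := by
      refine h1.trans (div_le_div_of_nonneg_right (mul_le_mul_of_nonneg_left ?_ hK0) hT0.le)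
      exact pow_le_pow_left₀ (by positivity) (by linarith) 2
    refine ⟨?_, by rw [← hsum]; exact h3⟩
    have h4 : (c 0 : ℂ) * ξ 0 = (∑ j, (c j : ℂ) * ξ j - f0) + f0 -
        ∑ j : Fin m, (c j.succ : ℂ) * ξ j.succ := by
      rw [Fin.sum_univ_succ]
      ring
    have h5 : ‖∑ j : Fin m, (c j.succ : ℂ) * ξ j.succ‖ ≤ C1 * B := by
      rw [hC1, Finset.sum_mul]
      refine norm_sum_le_of_le _ fun j _ => ?_
      rw [norm_mul, Complex.norm_real, Real.norm_eq_abs]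
      exact mul_le_mul_of_nonneg_left (hxj j) (abs_nonneg _)
    have h6 : |c 0| * z ≤ K * (1 + (z + B)) ^ 2 / T + ‖f0‖ + C1 * B := by
      have h7 : |c 0| * z = ‖(c 0 : ℂ) * ξ 0‖ := by
        rw [norm_mul, Complex.norm_real, Real.norm_eq_abs]
      rw [h7, h4]
      refine (norm_sub_le _ _).trans (add_le_add ((norm_add_le _ _).trans ?_) h5)
      exact add_le_add h3 le_rfl
    have h8 : K * (1 + (z + B)) ^ 2 / T ≤ 3 * K * (1 + B ^ 2) / T + 3 * K * ε * z := by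
      have h9 : (1 + (z + B)) ^ 2 ≤ 3 * (1 + B ^ 2) + 3 * z ^ 2 := by
        nlinarith [sq_nonneg (z - B), sq_nonneg (z - 1), sq_nonneg (B - 1)]
      have h10 : K * (1 + (z + B)) ^ 2 / T ≤ K * (3 * (1 + B ^ 2) + 3 * z ^ 2) / T :=
        div_le_div_of_nonneg_right (mul_le_mul_of_nonneg_left h9 hK0) hT0.le
      have h11 : K * (3 * (1 + B ^ 2) + 3 * z ^ 2) / T =
          3 * K * (1 + B ^ 2) / T + 3 * K * (z ^ 2 / T) := by ring
      have h12 : z ^ 2 / T ≤ ε * z := by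
        rw [div_le_iff₀ hT0]
        nlinarith
      have h13 : 3 * K * (z ^ 2 / T) ≤ 3 * K * (ε * z) :=
        mul_le_mul_of_nonneg_left h12 (by positivity)
      rw [h11] at h10
      linarith
    have h14 : 3 * K * ε * z ≤ |c 0| / 2 * z := mul_le_mul_of_nonneg_right hε2 hz0
    linarith
  -- asymptotics
  have hsq : Tendsto (fun T : ℕ => √(T : ℝ)) atTop atTop :=
    Real.tendsto_sqrt_atTop.comp tendsto_natCast_atTop_atTop
  have hinv : Tendsto (fun T : ℕ => (√(T : ℝ))⁻¹) atTop (nhds 0) :=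
    tendsto_inv_atTop_zero.comp hsq
  have hlog : Tendsto (fun T : ℕ => Real.log T / √(T : ℝ)) atTop (nhds 0) := by
    have h1 := (isLittleO_log_rpow_atTop (r := 1 / 2) (by norm_num)).tendsto_div_nhds_zero
    have h2 := h1.comp (tendsto_natCast_atTop_atTop (R := ℝ))
    refine h2.congr fun T => ?_
    simp only [Function.comp_apply, Real.sqrt_eq_rpow]
  refine ⟨ε, hε0, ?_, ?_, ?_⟩
  · -- existence
    set w : ℂ := f0 / (c 0 : ℂ) with hw
    have hc0' : (c 0 : ℂ) ≠ 0 := by exact_mod_cast hc0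
    have hlim : Tendsto (fun T : ℕ => K * (2 + ‖w‖) ^ 2 / (T : ℝ)) atTop (nhds 0) :=
      tendsto_const_nhds.div_atTop tendsto_natCast_atTop_atTop
    have hlim2 : Tendsto (fun T : ℕ => ε * (T : ℝ) / 2) atTop atTop := by
      have h1 : Tendsto (fun T : ℕ => ε / 2 * (T : ℝ)) atTop atTop :=
        tendsto_natCast_atTop_atTop.const_mul_atTop (by positivity)
      refine h1.congr fun T => ?_
      ring
    filter_upwards [hlim.eventually_lt_const (show (0 : ℝ) < |c 0| / 2 by positivity),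
      hlim2.eventually_ge_atTop (1 + ‖w‖), eventually_ge_atTop 1] with T h1 h2 h3
    have hTr : (1 : ℝ) ≤ T := by exact_mod_cast h3
    have hT0 : (0 : ℝ) < T := by linarith
    set s : ℂ := Complex.I * (T : ℂ) with hs
    have hsn : ‖s‖ = T := by rw [hs, norm_mul, Complex.norm_I, one_mul, Complex.norm_natCast]
    have hs0 : s ≠ 0 := by
      rw [← norm_pos_iff, hsn]
      exact hT0
    set ξ : ℂ → Fin (m + 1) → ℂ := fun z => Fin.cons z (fun _ => 0) with hξ
    set x : ℂ → Fin (m + 1) → ℂ := fun z j => s * b j + ξ z j with hx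
    set g : ℂ → ℂ := fun z => aeval (x z) (∑ i ∈ Finset.range (e + 2), Fc i) / (s ^ e * μ) with hg
    have hgd : Differentiable ℂ g := by
      refine (RootAux.diff_aeval (fun j => ?_) _).div_const _
      refine Fin.cases ?_ (fun i => ?_) j
      · simp only [hx, hξ, Fin.cons_zero]
        exact (differentiable_const _).add differentiable_id
      · simp only [hx, hξ, Fin.cons_succ]
        exact differentiable_const _
    have hξn : ∀ z, ‖ξ z‖ = ‖z‖ := by
      intro z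
      refine le_antisymm ?_ ?_
      · rw [pi_norm_le_iff_of_nonneg (norm_nonneg _)]
        intro j
        refine Fin.cases ?_ (fun i => ?_) j
        · simp [hξ]
        · simp [hξ]
      · have := norm_le_pi_norm (ξ z) 0
        simpa [hξ] using this
    have hest : ∀ z : ℂ, ‖z‖ ≤ 1 + ‖w‖ → ‖g z - ((c 0 : ℂ) * z - f0)‖ < |c 0| / 2 := by
      intro z hz
      have h4 := hK s (by rw [hsn]; exact hTr) (ξ z) (by
        rw [hξn, hsn]
        refine hz.trans (h2.trans ?_)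
        nlinarith)
      have h5 : ∑ j, (c j : ℂ) * ξ z j + aeval b (Fc e) / μ = (c 0 : ℂ) * z - f0 := by
        rw [Fin.sum_univ_succ]
        simp [hξ, hf0]
      change ‖g z - (∑ j, (c j : ℂ) * ξ z j + aeval b (Fc e) / μ)‖ ≤ _ at h4
      rw [h5, hξn, hsn] at h4
      refine lt_of_le_of_lt (h4.trans ?_) h1
      refine div_le_div_of_nonneg_right (mul_le_mul_of_nonneg_left ?_ hK0) hT0.le
      exact pow_le_pow_left₀ (by positivity) (by linarith) 2
    have hzero : ∃ z : ℂ, ‖z‖ ≤ 1 + ‖w‖ ∧ g z = 0 := by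
      by_contra hcon
      push Not at hcon
      have hball : ∀ z ∈ Metric.closedBall w 1, ‖z‖ ≤ 1 + ‖w‖ := by
        intro z hz
        rw [mem_closedBall_iff_norm] at hz
        calc ‖z‖ = ‖(z - w) + w‖ := by ring_nf
          _ ≤ ‖z - w‖ + ‖w‖ := norm_add_le _ _
          _ ≤ _ := by linarith
      have hcw : (c 0 : ℂ) * w - f0 = 0 := by
        rw [hw]
        field_simp
        ring
      have hdc : DiffContOnCl ℂ (fun z => (g z)⁻¹) (Metric.ball w 1) := by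
        refine hgd.diffContOnCl.inv fun z hz => ?_
        rw [closure_ball w one_ne_zero] at hz
        exact hcon z (hball z hz)
      have hfr : ∀ z ∈ frontier (Metric.ball w 1), ‖(g z)⁻¹‖ ≤ 2 / |c 0| := by
        intro z hz
        rw [frontier_ball w one_ne_zero] at hz
        have hz1 : ‖z - w‖ = 1 := by rwa [mem_sphere_iff_norm] at hz
        have h6 := hest z (hball z (Metric.sphere_subset_closedBall hz))
        have h7 : ‖(c 0 : ℂ) * z - f0‖ = |c 0| := by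
          have h8 : (c 0 : ℂ) * z - f0 = (c 0 : ℂ) * (z - w) + ((c 0 : ℂ) * w - f0) := by ring
          rw [h8, hcw, add_zero, norm_mul, hz1, mul_one, Complex.norm_real, Real.norm_eq_abs]
        have h9 : |c 0| / 2 ≤ ‖g z‖ := by
          have h10 : ‖(c 0 : ℂ) * z - f0‖ ≤ ‖g z‖ + ‖g z - ((c 0 : ℂ) * z - f0)‖ := by
            have h11 : (c 0 : ℂ) * z - f0 = g z - (g z - ((c 0 : ℂ) * z - f0)) := by ring
            calc ‖(c 0 : ℂ) * z - f0‖ = ‖g z - (g z - ((c 0 : ℂ) * z - f0))‖ := by rw [← h11]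
              _ ≤ _ := norm_sub_le _ _
          rw [h7] at h10
          linarith
        rw [norm_inv]
        calc ‖g z‖⁻¹ ≤ (|c 0| / 2)⁻¹ := inv_anti₀ (by positivity) h9
          _ = 2 / |c 0| := by rw [inv_div]
      have h12 := Complex.norm_le_of_forall_mem_frontier_norm_le Metric.isBounded_ball hdc hfr
        (z := w) (subset_closure (Metric.mem_ball_self one_pos))
      have h13 := hest w (by linarith)
      rw [hcw, sub_zero] at h13
      have h14 : g w ≠ 0 := hcon w (by linarith)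
      rw [norm_inv, inv_le_comm₀ (norm_pos_iff.mpr h14) (by positivity), inv_div] at h12
      linarith
    obtain ⟨z, hz1, hz2⟩ := hzero
    refine ⟨x z, ?_, ?_, ?_⟩
    · simp only [hg] at hz2
      rw [div_eq_zero_iff] at hz2
      rcases hz2 with h | h
      · exact h
      · exact absurd h (mul_ne_zero (pow_ne_zero _ hs0) hμ)
    · intro j
      simp [hx, hξ, hb]
    · have h4 : x z 0 - s * (β 0 : ℂ) = z := by
        simp [hx, hξ, hb]
      rw [h4]
      linarith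
  · -- separation
    have hlim : Tendsto (fun T : ℕ => (2 / |c 0|) * ((‖f0‖ + 6 * K) * ((√(T : ℝ))⁻¹ * (√(T : ℝ))⁻¹) +
        C1 * (√(T : ℝ))⁻¹)) atTop (nhds ((2 / |c 0|) * ((‖f0‖ + 6 * K) * (0 * 0) + C1 * 0))) :=
      (((hinv.mul hinv).const_mul _).add (hinv.const_mul _)).const_mul _
    have h00 : (2 / |c 0|) * ((‖f0‖ + 6 * K) * (0 * 0) + C1 * 0) = 0 := by ring
    rw [h00] at hlim
    filter_upwards [hlim.eventually_lt_const (show (0 : ℝ) < ε / 2 by positivity),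
      eventually_ge_atTop 1] with T h1 h2 x hx hxj hx0
    have hTr : (1 : ℝ) ≤ T := by exact_mod_cast h2
    have hT0 : (0 : ℝ) < T := by linarith
    have hs0 : 0 < √(T : ℝ) := Real.sqrt_pos.mpr hT0
    have hss : √(T : ℝ) * √(T : ℝ) = T := Real.mul_self_sqrt hT0.le
    have hsT : √(T : ℝ) ≤ T := by
      have : 1 ≤ √(T : ℝ) := Real.one_le_sqrt.mpr hTr
      nlinarith
    have h3 := (hmain T h2 x hx (√(T : ℝ)) hs0.le hsT hxj hx0).1
    set z : ℝ := ‖x 0 - Complex.I * (T : ℂ) * (β 0 : ℂ)‖ with hz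
    have h4 : 3 * K * (1 + √(T : ℝ) ^ 2) / T ≤ 6 * K := by
      rw [Real.sq_sqrt hT0.le, div_le_iff₀ hT0]
      nlinarith
    have h5 : z ≤ (2 / |c 0|) * (‖f0‖ + 6 * K + C1 * √(T : ℝ)) := by
      have h6 : |c 0| / 2 * z ≤ ‖f0‖ + 6 * K + C1 * √(T : ℝ) := by linarith
      have h7 : z = (2 / |c 0|) * (|c 0| / 2 * z) := by
        field_simp
      rw [h7]
      exact mul_le_mul_of_nonneg_left h6 (by positivity)
    have h8 : (2 / |c 0|) * (‖f0‖ + 6 * K + C1 * √(T : ℝ)) =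
        ((2 / |c 0|) * ((‖f0‖ + 6 * K) * ((√(T : ℝ))⁻¹ * (√(T : ℝ))⁻¹) +
        C1 * (√(T : ℝ))⁻¹)) * T := by
      have h9 : (√(T : ℝ))⁻¹ * T = √(T : ℝ) := by
        rw [inv_mul_eq_iff_eq_mul₀ hs0.ne']
        exact hss.symm
      have h10 : (√(T : ℝ))⁻¹ * (√(T : ℝ))⁻¹ * T = 1 := by
        rw [mul_assoc, h9, inv_mul_cancel₀ hs0.ne']
      calc (2 / |c 0|) * (‖f0‖ + 6 * K + C1 * √(T : ℝ)) =
          (2 / |c 0|) * ((‖f0‖ + 6 * K) * ((√(T : ℝ))⁻¹ * (√(T : ℝ))⁻¹ * T) +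
            C1 * ((√(T : ℝ))⁻¹ * T)) := by rw [h9, h10, mul_one]
        _ = _ := by ring
    rw [h8] at h5
    refine h5.trans ?_
    nlinarith
  · -- precise form
    intro C δ hδ
    set A : ℝ := 1 + (2 / |c 0|) * (‖f0‖ + 6 * K) with hA
    set B : ℝ := (2 / |c 0|) * (C1 * |C|) + |C| with hB
    have hlim : Tendsto (fun T : ℕ => K * (A * (√(T : ℝ))⁻¹ + B * (Real.log T / √(T : ℝ))) ^ 2)
        atTop (nhds (K * (A * 0 + B * 0) ^ 2)) :=
      (((hinv.const_mul _).add (hlog.const_mul _)).pow 2).const_mul _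
    have h00 : K * (A * 0 + B * 0) ^ 2 = 0 := by ring
    rw [h00] at hlim
    have hlim2 : Tendsto (fun T : ℕ => |C| * (Real.log T / √(T : ℝ))) atTop (nhds (|C| * 0)) :=
      hlog.const_mul _
    rw [mul_zero] at hlim2
    filter_upwards [hlim.eventually_lt_const hδ, hlim2.eventually_lt_const one_pos,
      eventually_ge_atTop 1] with T h1 h1' h2 x hx hxj hx0
    have hTr : (1 : ℝ) ≤ T := by exact_mod_cast h2
    have hT0 : (0 : ℝ) < T := by linarith
    have hs0 : 0 < √(T : ℝ) := Real.sqrt_pos.mpr hT0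
    have hs1 : 1 ≤ √(T : ℝ) := Real.one_le_sqrt.mpr hTr
    have hss : √(T : ℝ) * √(T : ℝ) = T := Real.mul_self_sqrt hT0.le
    have hl0 : 0 ≤ Real.log T := Real.log_nonneg hTr
    have hb1 : |C| * Real.log T ≤ √(T : ℝ) := by
      have h3 : |C| * (Real.log T / √(T : ℝ)) = |C| * Real.log T / √(T : ℝ) := by ring
      rw [h3, div_lt_one hs0] at h1'
      exact h1'.le
    have hb0 : 0 ≤ |C| * Real.log T := by positivity
    have hbT : |C| * Real.log T ≤ T := hb1.trans (by nlinarith)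
    obtain ⟨h3, h4⟩ := hmain T h2 x hx (|C| * Real.log T) hb0 hbT
      (fun j => (hxj j).trans (mul_le_mul_of_nonneg_right (le_abs_self C) hl0)) hx0
    set z : ℝ := ‖x 0 - Complex.I * (T : ℂ) * (β 0 : ℂ)‖ with hz
    have hz0 : 0 ≤ z := norm_nonneg _
    have h5 : 3 * K * (1 + (|C| * Real.log T) ^ 2) / T ≤ 6 * K := by
      have h6 : (|C| * Real.log T) ^ 2 ≤ T := by
        calc (|C| * Real.log T) ^ 2 ≤ √(T : ℝ) ^ 2 := pow_le_pow_left₀ hb0 hb1 2
          _ = T := Real.sq_sqrt hT0.le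
      rw [div_le_iff₀ hT0]
      nlinarith
    have h6 : z ≤ (2 / |c 0|) * (‖f0‖ + 6 * K + C1 * (|C| * Real.log T)) := by
      have h7 : |c 0| / 2 * z ≤ ‖f0‖ + 6 * K + C1 * (|C| * Real.log T) := by linarith
      have h8 : z = (2 / |c 0|) * (|c 0| / 2 * z) := by
        field_simp
      rw [h8]
      exact mul_le_mul_of_nonneg_left h7 (by positivity)
    have h9 : 1 + (z + |C| * Real.log T) ≤ A + B * Real.log T := by
      rw [hA, hB]
      nlinarith
    have h10 : K * (1 + (z + |C| * Real.log T)) ^ 2 / T ≤ K * (A + B * Real.log T) ^ 2 / T := by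
      refine div_le_div_of_nonneg_right (mul_le_mul_of_nonneg_left ?_ hK0) hT0.le
      exact pow_le_pow_left₀ (by positivity) h9 2
    have h11 : K * (A + B * Real.log T) ^ 2 / T =
        K * (A * (√(T : ℝ))⁻¹ + B * (Real.log T / √(T : ℝ))) ^ 2 := by
      have h12 : A * (√(T : ℝ))⁻¹ + B * (Real.log T / √(T : ℝ)) =
          (A + B * Real.log T) / √(T : ℝ) := by
        field_simp
      rw [h12, div_pow, Real.sq_sqrt hT0.le]
      ring
    rw [h11] at h10
    exact (h4.trans h10).trans h1.le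

end Pool.Agent.EXR
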