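import Pool.Agent.EXP.Defs

/-!
# EXR / ExpRat: the exponential of a nonconstant rational function is not algebraic

PROOF. Strong induction on the number of terms of `p`. Let `h = A / B`, `W = A' B - A B'`. From
`sum p_l exp(l h) = 0` and its derivative, the term `i` is eliminated:
`sum c_l exp(l h) = 0`, `c_l = B^2 (p_i p_l' - p_i' p_l) + (l - i) W p_i p_l`, so all `c_l = 0`. If there is
`j ≠ i` with `p_j ≠ 0` this contradicts `alg`: with `A`, `B` coprime compare the multiplicities at a root of
`B`, and if `B` is constant compare degrees.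
-/

set_option autoImplicit false

namespace Pool.Agent.EXR

open Pool.Agent.EXP Polynomial Topology Filter

private theorem ev_eq (p : Polynomial (Polynomial ℂ)) (z θ : ℂ) {S : Finset ℕ}
    (hS : p.support ⊆ S) : ev p z θ = ∑ l ∈ S, (p.coeff l).eval z * θ ^ l := by
  unfold ev
  rw [Polynomial.eval_map, Polynomial.eval₂_eq_sum, Polynomial.sum_def]
  refine (Finset.sum_subset hS fun l _ hl => ?_)
  rw [Polynomial.notMem_support_iff.mp hl]
  simp

private theorem mulX (t : ℂ) (f : ℕ) (P : ℂ[X]) :
    (X - C t) * derivative ((X - C t) ^ f * P) =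
      (X - C t) ^ f * (C (f : ℂ) * P + (X - C t) * derivative P) := by
  rw [derivative_mul, derivative_X_sub_C_pow]
  cases f with
  | zero => simp
  | succ f =>
    rw [Nat.add_sub_cancel, pow_succ]
    ring

private theorem alg {A B P Q : ℂ[X]} {ν : ℂ} (hν : ν ≠ 0) (hB : B ≠ 0) (hcop : IsCoprime A B)
    (hA : ∀ c : ℂ, A ≠ C c * B) (hP : P ≠ 0) (hQ : Q ≠ 0)
    (h : B ^ 2 * (P * derivative Q - derivative P * Q) +
      C ν * (derivative A * B - A * derivative B) * P * Q = 0) : False := by
  by_cases hdeg : B.degree = 0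
  · obtain ⟨b, hb⟩ : ∃ b, B = C b := ⟨_, eq_C_of_degree_eq_zero hdeg⟩
    have hb0 : b ≠ 0 := by
      rintro rfl
      exact hB (by rw [hb, C_0])
    have hA' : derivative A ≠ 0 := by
      intro h0
      obtain ⟨a, ha⟩ : ∃ a, A = C a :=
        ⟨_, eq_C_of_natDegree_eq_zero (derivative_eq_zero.1 h0)⟩
      apply hA (a / b)
      rw [ha, hb, ← C_mul, div_mul_cancel₀ _ hb0]
    rw [hb, derivative_C, mul_zero, sub_zero] at h
    have h1 : C b ^ 2 * (P * derivative Q - derivative P * Q) =
        -(C ν * (derivative A * C b) * P * Q) := by linear_combination h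
    have hd1 : degree (C b ^ 2 * (P * derivative Q - derivative P * Q)) =
        degree (P * derivative Q - derivative P * Q) := by
      rw [← C_pow, degree_C_mul (pow_ne_zero 2 hb0)]
    have hd2 : degree (-(C ν * (derivative A * C b) * P * Q)) =
        degree (derivative A) + degree (P * Q) := by
      rw [degree_neg, show C ν * (derivative A * C b) * P * Q =
        C (ν * b) * (derivative A * (P * Q)) by rw [C_mul]; ring,
        degree_C_mul (mul_ne_zero hν hb0), degree_mul]
    have hd3 : degree (P * derivative Q - derivative P * Q) < degree (P * Q) := by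
      refine lt_of_le_of_lt (degree_sub_le _ _) (max_lt ?_ ?_)
      · rw [degree_mul, degree_mul]
        exact WithBot.add_lt_add_left (degree_ne_bot.2 hP) (degree_derivative_lt hQ)
      · rw [degree_mul, degree_mul]
        exact WithBot.add_lt_add_right (degree_ne_bot.2 hQ) (degree_derivative_lt hP)
    rw [← hd1, h1, hd2] at hd3
    have h0 : 0 ≤ degree (derivative A) := zero_le_degree_iff.2 hA'
    have h2 : degree (P * Q) ≤ degree (derivative A) + degree (P * Q) := by
      calc degree (P * Q) = 0 + degree (P * Q) := (zero_add _).symm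
        _ ≤ _ := by gcongr
    exact absurd hd3 (not_lt.2 h2)
  · obtain ⟨t, ht⟩ := IsAlgClosed.exists_root B hdeg
    have hAt : A.eval t ≠ 0 := by
      intro h0
      obtain ⟨u, v, huv⟩ := hcop
      have h1 := congrArg (eval t) huv
      rw [eval_add, eval_mul, eval_mul, h0, ht.eq_zero, mul_zero, mul_zero, add_zero,
        eval_one] at h1
      exact zero_ne_one h1
    obtain ⟨B1, hB1, hB1'⟩ := exists_eq_pow_rootMultiplicity_mul_and_not_dvd B hB t
    obtain ⟨P1, hP1, hP1'⟩ := exists_eq_pow_rootMultiplicity_mul_and_not_dvd P hP t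
    obtain ⟨Q1, hQ1, hQ1'⟩ := exists_eq_pow_rootMultiplicity_mul_and_not_dvd Q hQ t
    have he0 : 0 < B.rootMultiplicity t := (rootMultiplicity_pos hB).2 ht
    rw [dvd_iff_isRoot] at hB1' hP1' hQ1'
    set e := B.rootMultiplicity t
    set f := P.rootMultiplicity t
    set g := Q.rootMultiplicity t
    have xB := mulX t e B1
    have xP := mulX t f P1
    have xQ := mulX t g Q1
    rw [← hB1] at xB
    rw [← hP1] at xP
    rw [← hQ1] at xQ
    set x : ℂ[X] := X - C t with hx
    have hx0 : x ≠ 0 := X_sub_C_ne_zero t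
    have hfin : x ^ e * (B1 ^ 2 * (P1 * (C (g : ℂ) * Q1 + x * derivative Q1) -
        (C (f : ℂ) * P1 + x * derivative P1) * Q1)) +
        C ν * (x * derivative A * B1 - A * (C (e : ℂ) * B1 + x * derivative B1)) * P1 * Q1 = 0 := by
      have h1 : x ^ (e + f + g) * (x ^ e * (B1 ^ 2 * (P1 * (C (g : ℂ) * Q1 + x * derivative Q1) -
        (C (f : ℂ) * P1 + x * derivative P1) * Q1)) +
        C ν * (x * derivative A * B1 - A * (C (e : ℂ) * B1 + x * derivative B1)) * P1 * Q1) =
        x * (B ^ 2 * (P * derivative Q - derivative P * Q) +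
          C ν * (derivative A * B - A * derivative B) * P * Q) := by
        have e1 : x * (B ^ 2 * (P * derivative Q - derivative P * Q) +
            C ν * (derivative A * B - A * derivative B) * P * Q) =
            B ^ 2 * (P * (x * derivative Q) - (x * derivative P) * Q) +
            C ν * (x * derivative A * B - A * (x * derivative B)) * P * Q := by ring
        rw [e1, xB, xP, xQ]
        have e2 : ∀ D E F G : ℂ[X], B = x ^ e * B1 → P = x ^ f * P1 → Q = x ^ g * Q1 →
            B ^ 2 * (P * (x ^ g * D) - x ^ f * E * Q) +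
              C ν * (F * B - A * (x ^ e * G)) * P * Q =
            x ^ (e + f + g) * (x ^ e * (B1 ^ 2 * (P1 * D - E * Q1)) +
              C ν * (F * B1 - A * G) * P1 * Q1) := by
          intro D E F G h1 h2 h3
          rw [h1, h2, h3, pow_add, pow_add]
          ring
        exact (e2 _ _ _ _ hB1 hP1 hQ1).symm
      rw [h, mul_zero] at h1
      exact (mul_eq_zero.1 h1).resolve_left (pow_ne_zero _ hx0)
    have h2 := congrArg (eval t) hfin
    have hxt : x.eval t = 0 := by rw [hx]; simp
    simp only [eval_add, eval_mul, eval_sub, eval_pow, hxt, eval_C, eval_zero, zero_mul,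
      add_zero, zero_sub, zero_pow he0.ne'] at h2
    rw [zero_add] at h2
    have he : ((e : ℕ) : ℂ) ≠ 0 := by exact_mod_cast he0.ne'
    have n1 : eval t B1 ≠ 0 := hB1'
    have n2 : eval t P1 ≠ 0 := hP1'
    have n3 : eval t Q1 ≠ 0 := hQ1'
    have h3 : ν * -(eval t A * ((e : ℂ) * eval t B1)) * eval t P1 * eval t Q1 ≠ 0 :=
      mul_ne_zero (mul_ne_zero (mul_ne_zero hν (neg_ne_zero.2
        (mul_ne_zero hAt (mul_ne_zero he n1)))) n2) n3
    exact h3 h2

private theorem alg' {A B P Q : ℂ[X]} {ν : ℂ} (hν : ν ≠ 0) (hB : B ≠ 0)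
    (hA : ∀ c : ℂ, A ≠ C c * B) (hP : P ≠ 0) (hQ : Q ≠ 0)
    (h : B ^ 2 * (P * derivative Q - derivative P * Q) +
      C ν * (derivative A * B - A * derivative B) * P * Q = 0) : False := by
  obtain ⟨A1, hA1⟩ := EuclideanDomain.gcd_dvd_left A B
  obtain ⟨B1, hB1⟩ := EuclideanDomain.gcd_dvd_right A B
  have hG0 : EuclideanDomain.gcd A B ≠ 0 := by
    intro h0
    rw [h0, zero_mul] at hB1
    exact hB hB1
  have hbez := EuclideanDomain.gcd_eq_gcd_ab A B
  set G := EuclideanDomain.gcd A B
  have hcop : IsCoprime A1 B1 := by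
    refine ⟨EuclideanDomain.gcdA A B, EuclideanDomain.gcdB A B, ?_⟩
    apply mul_left_cancel₀ hG0
    rw [mul_one]
    calc G * (EuclideanDomain.gcdA A B * A1 + EuclideanDomain.gcdB A B * B1) =
        (G * A1) * EuclideanDomain.gcdA A B + (G * B1) * EuclideanDomain.gcdB A B := by ring
      _ = A * EuclideanDomain.gcdA A B + B * EuclideanDomain.gcdB A B := by rw [← hA1, ← hB1]
      _ = G := hbez.symm
  have hB10 : B1 ≠ 0 := by
    intro h0
    rw [h0, mul_zero] at hB1
    exact hB hB1
  refine alg hν hB10 hcop (fun c hc => hA c ?_) hP hQ ?_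
  · rw [hA1, hc]
    conv_rhs => rw [hB1]
    ring
  · have e1 : derivative A = derivative G * A1 + G * derivative A1 := by
      conv_lhs => rw [hA1]
      rw [derivative_mul]
    have e2 : derivative B = derivative G * B1 + G * derivative B1 := by
      conv_lhs => rw [hB1]
      rw [derivative_mul]
    have h1 : G ^ 2 * (B1 ^ 2 * (P * derivative Q - derivative P * Q) +
        C ν * (derivative A1 * B1 - A1 * derivative B1) * P * Q) = 0 := by
      have e3 : ∀ A' B' : ℂ[X], A' = G * A1 → B' = G * B1 →
          B' ^ 2 * (P * derivative Q - derivative P * Q) +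
          C ν * ((derivative G * A1 + G * derivative A1) * B' -
            A' * (derivative G * B1 + G * derivative B1)) * P * Q =
          G ^ 2 * (B1 ^ 2 * (P * derivative Q - derivative P * Q) +
            C ν * (derivative A1 * B1 - A1 * derivative B1) * P * Q) := by
        intro A' B' h1 h2
        rw [h1, h2]
        ring
      rw [← e3 A B hA1 hB1, ← e1, ← e2]
      exact h
    exact (mul_eq_zero.1 h1).resolve_left (pow_ne_zero 2 hG0)

private theorem ind (A B : ℂ[X]) (hB : B ≠ 0) (hnc : ∀ c : ℂ, A ≠ C c * B) (r s : ℝ)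
    (hrs : r < s) : ∀ (n : ℕ) (p : Polynomial (Polynomial ℂ)), p.support.card ≤ n →
    (∀ t ∈ Set.Ioo r s, B.eval (t : ℂ) ≠ 0 →
      ev p (t : ℂ) (Complex.exp (A.eval (t : ℂ) / B.eval (t : ℂ))) = 0) → p = 0 := by
  intro n
  induction n with
  | zero =>
    intro p hp _
    rwa [Nat.le_zero, Finset.card_eq_zero, Polynomial.support_eq_empty] at hp
  | succ n ih =>
    intro p hcard hz
    by_contra hp0
    obtain ⟨i, hi⟩ := Polynomial.support_nonempty.2 hp0
    set S := p.support with hS
    set W : ℂ[X] := derivative A * B - A * derivative B with hW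
    set c : ℕ → ℂ[X] := fun l => B ^ 2 * (p.coeff i * derivative (p.coeff l) -
      derivative (p.coeff i) * p.coeff l) + C ((l : ℂ) - i) * W * p.coeff i * p.coeff l with hc
    set p₂ : Polynomial (Polynomial ℂ) := ∑ l ∈ S, Polynomial.monomial l (c l) with hp₂
    have hcoeff : ∀ l, p₂.coeff l = c l := by
      intro l
      rw [hp₂, Polynomial.finsetSum_coeff]
      simp only [Polynomial.coeff_monomial]
      rw [Finset.sum_ite_eq']
      split_ifs with h
      · rfl
      · have : p.coeff l = 0 := Polynomial.notMem_support_iff.1 h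
        simp only [hc, this]
        simp
    have hci : c i = 0 := by
      simp only [hc]
      rw [sub_self, C_0]
      ring
    have hsub : p₂.support ⊆ S.erase i := by
      intro l hl
      rw [Polynomial.mem_support_iff, hcoeff] at hl
      rw [Finset.mem_erase]
      constructor
      · rintro rfl
        exact hl hci
      · by_contra h
        have : p.coeff l = 0 := Polynomial.notMem_support_iff.1 h
        apply hl
        simp only [hc, this]
        simp
    have hcard2 : p₂.support.card ≤ n := by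
      have h1 := Finset.card_le_card hsub
      rw [Finset.card_erase_of_mem hi] at h1
      omega
    have hz2 : ∀ t ∈ Set.Ioo r s, B.eval (t : ℂ) ≠ 0 →
        ev p₂ (t : ℂ) (Complex.exp (A.eval (t : ℂ) / B.eval (t : ℂ))) = 0 := by
      intro t ht hBt
      set F : ℂ → ℂ := fun z => ∑ l ∈ S, (p.coeff l).eval z *
        Complex.exp ((l : ℂ) * (A.eval z / B.eval z)) with hF
      have hF0 : ∀ z : ℂ, F z = ev p z (Complex.exp (A.eval z / B.eval z)) := by
        intro z
        rw [ev_eq p z _ (subset_refl S)]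
        refine Finset.sum_congr rfl fun l _ => ?_
        rw [Complex.exp_nat_mul]
      set F' : ℂ := ∑ l ∈ S, ((derivative (p.coeff l)).eval (t : ℂ) *
        Complex.exp ((l : ℂ) * (A.eval (t : ℂ) / B.eval (t : ℂ))) +
        (p.coeff l).eval (t : ℂ) *
        (Complex.exp ((l : ℂ) * (A.eval (t : ℂ) / B.eval (t : ℂ))) * ((l : ℂ) *
          (((derivative A).eval (t : ℂ) * B.eval (t : ℂ) -
            A.eval (t : ℂ) * (derivative B).eval (t : ℂ)) / B.eval (t : ℂ) ^ 2)))) with hF'
      have hder : HasDerivAt F F' (t : ℂ) := by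
        rw [hF, hF']
        apply HasDerivAt.fun_sum
        intro l _
        have h1 : HasDerivAt (fun z : ℂ => A.eval z / B.eval z)
            (((derivative A).eval (t : ℂ) * B.eval (t : ℂ) -
            A.eval (t : ℂ) * (derivative B).eval (t : ℂ)) / B.eval (t : ℂ) ^ 2) (t : ℂ) :=
          (A.hasDerivAt _).fun_div (B.hasDerivAt _) hBt
        exact ((p.coeff l).hasDerivAt _).fun_mul ((h1.const_mul (l : ℂ)).cexp)
      have hder2 : HasDerivAt (fun y : ℝ => F (y : ℂ)) F' t := hder.comp_ofReal
      have hev : (fun y : ℝ => F (y : ℂ)) =ᶠ[𝓝 t] fun _ => (0 : ℂ) := by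
        have h1 : ∀ᶠ y in 𝓝 t, y ∈ Set.Ioo r s := isOpen_Ioo.mem_nhds ht
        have h2 : ∀ᶠ y : ℝ in 𝓝 t, B.eval (y : ℂ) ≠ 0 := by
          have hcont : ContinuousAt (fun y : ℝ => B.eval (y : ℂ)) t :=
            (B.continuous.comp Complex.continuous_ofReal).continuousAt
          exact hcont.eventually_ne hBt
        filter_upwards [h1, h2] with y hy1 hy2
        rw [hF0]
        exact hz y hy1 hy2
      have hF'0 : F' = 0 := by
        have h1 : HasDerivAt (fun y : ℝ => F (y : ℂ)) 0 t :=
          (hasDerivAt_const t (0 : ℂ)).congr_of_eventuallyEq hev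
        exact hder2.unique h1
      have hFt : F (t : ℂ) = 0 := by
        rw [hF0]
        exact hz t ht hBt
      have hkey : ev p₂ (t : ℂ) (Complex.exp (A.eval (t : ℂ) / B.eval (t : ℂ))) =
          (p.coeff i).eval (t : ℂ) * B.eval (t : ℂ) ^ 2 * F' -
          (B.eval (t : ℂ) ^ 2 * (derivative (p.coeff i)).eval (t : ℂ) +
            (i : ℂ) * W.eval (t : ℂ) * (p.coeff i).eval (t : ℂ)) * F (t : ℂ) := by
        rw [ev_eq p₂ _ _ (hsub.trans (Finset.erase_subset _ _)), hF', hF, Finset.mul_sum,
          Finset.mul_sum, ← Finset.sum_sub_distrib]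
        refine Finset.sum_congr rfl fun l _ => ?_
        rw [hcoeff, ← Complex.exp_nat_mul]
        simp only [hc, hW, eval_add, eval_mul, eval_sub, eval_pow, eval_C]
        field_simp
        ring
      rw [hkey, hF'0, hFt, mul_zero, mul_zero, sub_zero]
    have hp₂0 := ih p₂ hcard2 hz2
    have hall : ∀ l, c l = 0 := fun l => by rw [← hcoeff, hp₂0, Polynomial.coeff_zero]
    have hpi : p.coeff i ≠ 0 := Polynomial.mem_support_iff.1 hi
    by_cases hex : ∃ j ∈ S, j ≠ i
    · obtain ⟨j, hj, hji⟩ := hex
      have hpj : p.coeff j ≠ 0 := Polynomial.mem_support_iff.1 hj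
      have hν : (j : ℂ) - i ≠ 0 := sub_ne_zero.2 (by exact_mod_cast hji)
      exact alg' hν hB hnc hpi hpj (hall j)
    · push Not at hex
      have hSi : S = {i} := by
        ext l
        rw [Finset.mem_singleton]
        exact ⟨fun h => hex l h, fun h => h ▸ hi⟩
      have hzero : p.coeff i * B = 0 := by
        apply Polynomial.eq_zero_of_infinite_isRoot
        have h1 : (Set.Ioo r s).Infinite := Set.Ioo_infinite hrs
        refine (h1.image (f := fun t : ℝ => (t : ℂ)) Complex.ofReal_injective.injOn).mono ?_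
        rintro _ ⟨t, ht, rfl⟩
        show eval (t : ℂ) (p.coeff i * B) = 0
        rw [eval_mul]
        by_cases hBt : B.eval (t : ℂ) = 0
        · rw [hBt, mul_zero]
        · have h2 := hz t ht hBt
          rw [ev_eq p _ _ (le_of_eq hSi), Finset.sum_singleton] at h2
          rw [(mul_eq_zero.1 h2).resolve_right (pow_ne_zero _ (Complex.exp_ne_zero _)), zero_mul]
      exact (mul_ne_zero hpi hB) hzero

theorem exp_rat (A B : Polynomial ℂ) (hB : B ≠ 0) (hnc : ∀ c : ℂ, A ≠ Polynomial.C c * B)
    (p : Polynomial (Polynomial ℂ)) (hp : p ≠ 0) (r s : ℝ) (hrs : r < s) :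
    ∃ t ∈ Set.Ioo r s, B.eval (t : ℂ) ≠ 0 ∧
      ev p (t : ℂ) (Complex.exp (A.eval (t : ℂ) / B.eval (t : ℂ))) ≠ 0 := by
  by_contra hcon
  push Not at hcon
  exact hp (ind A B hB hnc r s hrs p.support.card p le_rfl fun t ht h => hcon t ht h)

end Pool.Agent.EXR
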