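import Pool.Agent.EXR.ExpRat
import Pool.Agent.EXI.CDefs

/-!
# EXR / SelBeta: a real point with `(exp (A / R), I β)` algebraically independent

PROOF.  For a nonzero `N` in `k[Z, X']` (countably many) let `E_N` = the `β ∈ ℝ^m` with `R(β) = 0` or `N(exp(A(β) / R(β)), I β) = 0`, after
multiplication: it is closed (`R(β) ≠ 0` is open and the function is continuous there; take the union with `{R = 0}`, which is closed). CLAIM: it has
empty interior. Otherwise it contains an open box `O`; `{R = 0}` contains no open set, so there is an open `O' ⊆ O` with `R ≠ 0` and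
`N(exp(A/R), I β) = 0` on `O'`. `A / R` is not constant on `O'` (otherwise `A = c R` on `O'`, so everywhere), so there are `p, q` in `O'`
with different values; on the line `t ↦ p + t (q - p)` (perturb `p` so that `N(Z, I (p + t (q - p)))` is not zero as a polynomial in
`Z, t`: choose `p` in `O'` with `N(Z, I p) ≠ 0`) `exp_rat` gives a contradiction for `t` in a small interval around `0` (`A(p + t(q-p))`,
`R(p + t(q-p))` as polynomials in `t`, not proportional). Baire: `ℝ^m` is not a countable union of closed sets with empty interior.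
`algebraicIndependent_iff`.
-/

set_option autoImplicit false

namespace Pool.Agent.EXR

open MvPolynomial Pool.Agent.EXI Pool.Agent.EXP

private theorem sb_box {σ : Type} (s : σ → Set ℂ) (hs : ∀ i, (s i).Infinite)
    (H : MvPolynomial σ ℂ) (hH : H ≠ 0) : ∃ x : σ → ℂ, (∀ i, x i ∈ s i) ∧ eval x H ≠ 0 := by
  by_contra hcon
  push Not at hcon
  apply hH
  refine MvPolynomial.funext_set s hs ?_
  intro x hx
  rw [map_zero]
  exact hcon x fun i => hx i (Set.mem_univ i)

private theorem sb_sub {σ : Type} (R : MvPolynomial σ ℂ) (x : σ → ℂ) :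
    eval x (aeval (fun j => C (-Complex.I) * X j) R : MvPolynomial σ ℂ) =
      eval (fun j => -Complex.I * x j) R := by
  induction R using MvPolynomial.induction_on with
  | C a =>
    rw [aeval_C, eval_C]
    exact eval_C _
  | add f g hf hg => rw [map_add, map_add, map_add, hf, hg]
  | mul_X f i hf => rw [map_mul, map_mul, map_mul, hf, aeval_X, eval_X, map_mul, eval_C, eval_X]

/-- the values on a line -/
private theorem sb_line {σ : Type} (A : MvPolynomial σ ℂ) (p v : σ → ℂ) (t : ℂ) :
    (aeval (fun j => Polynomial.C (p j) + Polynomial.X * Polynomial.C (v j)) A :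
      Polynomial ℂ).eval t = eval (fun j => p j + t * v j) A := by
  induction A using MvPolynomial.induction_on with
  | C a =>
    rw [aeval_C, eval_C]
    exact Polynomial.eval_C
  | add f g hf hg => rw [map_add, map_add, Polynomial.eval_add, hf, hg]
  | mul_X f i hf =>
    rw [map_mul, map_mul, Polynomial.eval_mul, hf, aeval_X, eval_X, Polynomial.eval_add,
      Polynomial.eval_mul, Polynomial.eval_C, Polynomial.eval_C, Polynomial.eval_X]

/-- the polynomial `N(Θ, I (p + t v))` -/
private noncomputable def sbN {k : Subfield ℂ} {m : ℕ} (p v : Fin m → ℂ)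
    (N : MvPolynomial (Option (Fin m)) k) : Polynomial (Polynomial ℂ) :=
  eval₂ ((Polynomial.C.comp Polynomial.C).comp (algebraMap k ℂ))
    (cons Polynomial.X fun j => Polynomial.C (Polynomial.C Complex.I *
      (Polynomial.C (p j) + Polynomial.X * Polynomial.C (v j)))) N

private theorem sbN_ev {k : Subfield ℂ} {m : ℕ} (p v : Fin m → ℂ)
    (N : MvPolynomial (Option (Fin m)) k) (t θ : ℂ) :
    ev (sbN p v N) t θ =
      aeval (cons θ (fun j => Complex.I * (p j + t * v j)) : Option (Fin m) → ℂ) N := by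
  induction N using MvPolynomial.induction_on with
  | C a =>
    rw [sbN, eval₂_C, aeval_C, ev, RingHom.comp_apply, RingHom.comp_apply, Polynomial.map_C,
      Polynomial.eval_C]
    simp
  | add f g hf hg =>
    rw [sbN, ev] at hf hg ⊢
    rw [eval₂_add, Polynomial.map_add, Polynomial.eval_add, hf, hg, map_add]
  | mul_X f i hf =>
    rw [sbN, ev] at hf ⊢
    rw [eval₂_mul, Polynomial.map_mul, Polynomial.eval_mul, hf, map_mul, aeval_X, eval₂_X]
    congr 1
    cases i with
    | none => simp [cons]
    | some j =>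
      simp [cons]
      ring

private theorem sb_inf (c ε : ℝ) (hε : 0 < ε) (z : ℂ) (hz : z ≠ 0) :
    ((fun x : ℝ => z * (x : ℂ)) '' Set.Ioo (c - ε) (c + ε)).Infinite := by
  refine Set.Infinite.image ?_ (Set.Ioo_infinite (by linarith))
  intro x _ y _ h
  have := mul_left_cancel₀ hz h
  exact_mod_cast this

/-- density of the set where `N` does not vanish -/
private theorem sb_dense {k : Subfield ℂ} {m : ℕ} (A R : MvPolynomial (Fin m) ℂ) (hR : R ≠ 0)
    (hnc : ∀ c : ℂ, A ≠ C c * R) (N : MvPolynomial (Option (Fin m)) k) (hN : N ≠ 0)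
    (β : Fin m → ℝ) (ε : ℝ) (hε : 0 < ε) :
    ∃ b : Fin m → ℝ, (∀ j, |b j - β j| < ε) ∧ eval (fun j => (b j : ℂ)) R ≠ 0 ∧
      aeval (cons (Complex.exp (eval (fun j => (b j : ℂ)) A / eval (fun j => (b j : ℂ)) R))
        (fun j => Complex.I * (b j : ℂ)) : Option (Fin m) → ℂ) N ≠ 0 := by
  classical
  -- the point `p`
  obtain ⟨p, θ, hpβ, hpR, hpN⟩ : ∃ (p : Fin m → ℝ) (θ : ℂ), (∀ j, |p j - β j| < ε) ∧
      eval (fun j => (p j : ℂ)) R ≠ 0 ∧
      aeval (cons θ (fun j => Complex.I * (p j : ℂ)) : Option (Fin m) → ℂ) N ≠ 0 := by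
    obtain ⟨N', hN'⟩ : ∃ N' : MvPolynomial (Option (Fin m)) ℂ, N' = map (algebraMap k ℂ) N :=
      ⟨_, rfl⟩
    have hN0 : N' ≠ 0 := by
      rw [hN']
      intro h
      exact hN ((map_injective _ (algebraMap k ℂ).injective) (by rw [h, map_zero]))
    obtain ⟨R', hR'⟩ : ∃ R' : MvPolynomial (Fin m) ℂ,
        R' = aeval (fun j => C (-Complex.I) * X j) R := ⟨_, rfl⟩
    have hRe : ∀ x : Fin m → ℂ, eval x R' = eval (fun j => -Complex.I * x j) R := by
      intro x
      rw [hR', sb_sub]
    have hR0 : R' ≠ 0 := by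
      obtain ⟨x, _, hx⟩ := sb_box (fun _ => Set.univ) (fun _ => Set.infinite_univ) R hR
      intro h
      have h1 := hRe fun j => Complex.I * x j
      rw [h, map_zero] at h1
      apply hx
      rw [h1]
      congr 2
      funext j
      rw [← mul_assoc, neg_mul, Complex.I_mul_I, neg_neg, one_mul]
    have hprod : N' * rename some R' ≠ 0 := by
      refine mul_ne_zero hN0 ?_
      intro h
      exact hR0 ((rename_injective _ (Option.some_injective _)) (by rw [h, map_zero]))
    obtain ⟨x, hx, hxe⟩ := sb_box (fun o : Option (Fin m) => match o with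
      | none => Set.univ
      | some j => (fun x : ℝ => Complex.I * (x : ℂ)) '' Set.Ioo (β j - ε) (β j + ε)) (by
        intro o
        cases o with
        | none => exact Set.infinite_univ
        | some j => exact sb_inf _ _ hε _ Complex.I_ne_zero) _ hprod
    have hx' : ∀ j : Fin m, ∃ y : ℝ, y ∈ Set.Ioo (β j - ε) (β j + ε) ∧
        Complex.I * (y : ℂ) = x (some j) := fun j => hx (some j)
    choose p hp hpx using hx'
    rw [map_mul] at hxe
    have hxe1 := left_ne_zero_of_mul hxe
    have hxe2 := right_ne_zero_of_mul hxe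
    refine ⟨p, x none, ?_, ?_, ?_⟩
    · intro j
      obtain ⟨h1, h2⟩ := hp j
      rw [abs_lt]
      constructor <;> linarith
    · rw [eval_rename, hRe] at hxe2
      intro h
      apply hxe2
      rw [← h]
      congr 2
      funext j
      rw [Function.comp_apply, ← hpx, ← mul_assoc, neg_mul, Complex.I_mul_I, neg_neg, one_mul]
    · intro h
      apply hxe1
      rw [hN', eval_map, ← aeval_def, ← h]
      congr 2
      funext o
      cases o with
      | none => rfl
      | some j => exact (hpx j).symm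
  -- the point `q`
  obtain ⟨q, hqβ, hqR, hqA⟩ : ∃ q : Fin m → ℝ, (∀ j, |q j - β j| < ε) ∧
      eval (fun j => (q j : ℂ)) R ≠ 0 ∧ eval (fun j => (q j : ℂ)) A *
        eval (fun j => (p j : ℂ)) R ≠ eval (fun j => (p j : ℂ)) A *
          eval (fun j => (q j : ℂ)) R := by
    have h1 : A * C (eval (fun j => (p j : ℂ)) R) - C (eval (fun j => (p j : ℂ)) A) * R ≠ 0 := by
      intro h
      apply hnc (eval (fun j => (p j : ℂ)) A / eval (fun j => (p j : ℂ)) R)
      rw [sub_eq_zero] at h
      have h2 : A * C (eval (fun j => (p j : ℂ)) R) * C (eval (fun j => (p j : ℂ)) R)⁻¹ =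
          C (eval (fun j => (p j : ℂ)) A) * R * C (eval (fun j => (p j : ℂ)) R)⁻¹ := by rw [h]
      rw [mul_assoc, ← C_mul, mul_inv_cancel₀ hpR, C_1, mul_one] at h2
      refine h2.trans ?_
      rw [div_eq_mul_inv, C_mul]
      ring
    obtain ⟨x, hx, hxe⟩ := sb_box (fun j : Fin m => (fun x : ℝ => (1 : ℂ) * (x : ℂ)) ''
      Set.Ioo (β j - ε) (β j + ε)) (fun j => sb_inf _ _ hε _ one_ne_zero) _ (mul_ne_zero hR h1)
    have hx' : ∀ j : Fin m, ∃ y : ℝ, y ∈ Set.Ioo (β j - ε) (β j + ε) ∧
        (1 : ℂ) * (y : ℂ) = x j := fun j => hx j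
    choose q hq hqx using hx'
    have hxq : x = fun j => (q j : ℂ) := by
      funext j
      rw [← hqx, one_mul]
    rw [hxq, map_mul] at hxe
    refine ⟨q, ?_, left_ne_zero_of_mul hxe, ?_⟩
    · intro j
      obtain ⟨h1, h2⟩ := hq j
      rw [abs_lt]
      constructor <;> linarith
    · intro h
      apply right_ne_zero_of_mul hxe
      rw [map_sub, map_mul, map_mul, eval_C, eval_C, sub_eq_zero]
      exact h
  -- the line
  obtain ⟨P, hP⟩ : ∃ P : Fin m → ℂ, P = fun j => (p j : ℂ) := ⟨_, rfl⟩
  obtain ⟨V, hV⟩ : ∃ V : Fin m → ℂ, V = fun j => (q j : ℂ) - (p j : ℂ) := ⟨_, rfl⟩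
  have hl : ∀ t : ℝ, (fun j => P j + (t : ℂ) * V j) =
      fun j => ((p j + t * (q j - p j) : ℝ) : ℂ) := by
    intro t
    funext j
    rw [hP, hV]
    push_cast
    ring
  have h0 : (fun j => P j + (0 : ℂ) * V j) = fun j => (p j : ℂ) := by
    funext j
    rw [hP]
    simp
  have h1 : (fun j => P j + (1 : ℂ) * V j) = fun j => (q j : ℂ) := by
    funext j
    rw [hP, hV]
    simp
  obtain ⟨t, ⟨ht0, ht1⟩, htB, htN⟩ := exp_rat
    (aeval (fun j => Polynomial.C (P j) + Polynomial.X * Polynomial.C (V j)) A)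
    (aeval (fun j => Polynomial.C (P j) + Polynomial.X * Polynomial.C (V j)) R)
    (by
      intro h
      apply hpR
      rw [← h0, ← sb_line, h, Polynomial.eval_zero])
    (by
      intro c h
      apply hqA
      have e0 := congrArg (Polynomial.eval (0 : ℂ)) h
      have e1 := congrArg (Polynomial.eval (1 : ℂ)) h
      rw [Polynomial.eval_mul, Polynomial.eval_C, sb_line, sb_line, h0] at e0
      rw [Polynomial.eval_mul, Polynomial.eval_C, sb_line, sb_line, h1] at e1
      rw [e0, e1]
      ring)
    (sbN P V N)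
    (by
      intro h
      apply hpN
      have e0 := sbN_ev P V N 0 θ
      rw [h] at e0
      have e2 : (fun j => Complex.I * (P j + (0 : ℂ) * V j)) = fun j => Complex.I * (p j : ℂ) := by
        funext j
        rw [congrFun h0 j]
      rw [e2] at e0
      rw [← e0]
      simp [ev]) 0 1 one_pos
  rw [sb_line, hl] at htB
  rw [sbN_ev, sb_line, sb_line, hl] at htN
  refine ⟨fun j => p j + t * (q j - p j), ?_, htB, ?_⟩
  · intro j
    have e1 := abs_lt.1 (hpβ j)
    have e2 := abs_lt.1 (hqβ j)
    rw [abs_lt]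
    constructor <;> nlinarith
  · have e2 : (fun j => Complex.I * (P j + (t : ℂ) * V j)) =
        fun j => Complex.I * ((p j + t * (q j - p j) : ℝ) : ℂ) := by
      funext j
      rw [congrFun (hl t) j]
    rw [e2] at htN
    exact htN

theorem exists_beta (k : Subfield ℂ) (hk : (k : Set ℂ).Countable) {m : ℕ}
    (A R : MvPolynomial (Fin m) ℂ) (hR : R ≠ 0) (hnc : ∀ c : ℂ, A ≠ C c * R) :
    ∃ β : Fin m → ℝ, eval (fun j => (β j : ℂ)) R ≠ 0 ∧
      AlgebraicIndependent k (cons (Complex.exp (eval (fun j => (β j : ℂ)) A /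
        eval (fun j => (β j : ℂ)) R)) (fun j => Complex.I * (β j : ℂ)) :
          Option (Fin m) → ℂ) := by
  classical
  have hev : ∀ H : MvPolynomial (Fin m) ℂ,
      Continuous fun β : Fin m → ℝ => eval (fun j => (β j : ℂ)) H := by
    intro H
    refine (MvPolynomial.continuous_eval H).comp ?_
    exact continuous_pi fun j => Complex.continuous_ofReal.comp (continuous_apply j)
  have hOR : IsOpen {β : Fin m → ℝ | eval (fun j => (β j : ℂ)) R ≠ 0} :=
    isOpen_ne_fun (hev R) continuous_const
  have hcount : Countable (MvPolynomial (Option (Fin m)) k) := by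
    have h1 : Cardinal.mk k ≤ Cardinal.aleph0 := Cardinal.mk_le_aleph0_iff.2 hk.to_subtype
    refine Cardinal.mk_le_aleph0_iff.1 ((MvPolynomial.cardinalMk_le_max).trans ?_)
    exact max_le (max_le h1 (Cardinal.mk_le_aleph0_iff.2 inferInstance)) le_rfl
  let U : {N : MvPolynomial (Option (Fin m)) k // N ≠ 0} → Set (Fin m → ℝ) := fun N =>
    {β | eval (fun j => (β j : ℂ)) R ≠ 0 ∧
      aeval (cons (Complex.exp (eval (fun j => (β j : ℂ)) A / eval (fun j => (β j : ℂ)) R))
        (fun j => Complex.I * (β j : ℂ)) : Option (Fin m) → ℂ) N.1 ≠ 0}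
  have hUo : ∀ N, IsOpen (U N) := by
    intro N
    have hc : ContinuousOn (fun β : Fin m → ℝ => aeval (cons (Complex.exp
        (eval (fun j => (β j : ℂ)) A / eval (fun j => (β j : ℂ)) R))
        (fun j => Complex.I * (β j : ℂ)) : Option (Fin m) → ℂ) N.1)
        {β : Fin m → ℝ | eval (fun j => (β j : ℂ)) R ≠ 0} := by
      have h1 : ∀ x : Option (Fin m) → ℂ, aeval x N.1 = eval x (map (algebraMap k ℂ) N.1) := by
        intro x
        rw [eval_map, aeval_def]
      simp only [h1]
      refine (MvPolynomial.continuous_eval _).comp_continuousOn ?_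
      refine continuousOn_pi.2 fun o => ?_
      cases o with
      | none =>
        exact Complex.continuous_exp.comp_continuousOn
          ((hev A).continuousOn.div (hev R).continuousOn fun β hβ => hβ)
      | some j =>
        exact (continuous_const.mul
          (Complex.continuous_ofReal.comp (continuous_apply j))).continuousOn
    exact hc.isOpen_inter_preimage hOR isOpen_compl_singleton
  have hUd : ∀ N, Dense (U N) := by
    intro N
    rw [Metric.dense_iff]
    intro β ε hε
    obtain ⟨b, hb1, hb2, hb3⟩ := sb_dense A R hR hnc N.1 N.2 β ε hε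
    refine ⟨b, ?_, hb2, hb3⟩
    rw [Metric.mem_ball, dist_pi_lt_iff hε]
    intro j
    rw [Real.dist_eq]
    exact hb1 j
  obtain ⟨β, hβ⟩ := (dense_iInter_of_isOpen hUo hUd).nonempty
  rw [Set.mem_iInter] at hβ
  refine ⟨β, (hβ ⟨1, one_ne_zero⟩).1, ?_⟩
  rw [algebraicIndependent_iff]
  intro N hN
  by_contra hne
  exact (hβ ⟨N, hne⟩).2 hN

end Pool.Agent.EXR
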