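import Pool.Agent.EXR.CoreR
import Pool.Agent.EXR.SelBeta
import Pool.Agent.EXZ.FibreZ
import Pool.Agent.EXG.Gz
import Pool.Agent.EXK.KFin
import Pool.Agent.EXP.Main

/-!
# EXR / FinR: the theorem for `G = X 0`

PROOF.  As `EXZ.mainC` (FinC on main; only the real zero case). `F_i = homogeneousComponent i F`, `d = totalDegree F ≥ 1`. `R' = R(0, X')`,
`A' = - F_{d-1}(0, X')` in `ℂ[X']`: `R' ≠ 0` (`hR`), `A' ≠ C c * R'` (`hnc` for `κ = - c`: `X 0 ∣ g` iff `g(0, X') = 0`). `exists_beta` over `k`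
(which contains all coefficients and `I`): `β'`, `β = Fin.cons 0 β'`, `μ = R(0, β')`, `f0 = A'(β') / R'(β')`. `∂_j (X 0 * R)(0, β')` is
`R(0, β')` for `j = 0` and `0` otherwise. `fibre_curveZ` with `i = 0`, `gen_zero`, `coreR`.
-/

set_option autoImplicit false

namespace Pool.Agent.EXR

open MvPolynomial Pool.Agent.EXL Pool.Agent.EXI Pool.Agent.EXK Pool.Agent.EXG Pool.Agent.EXZ

private lemma aeval_eq (k : Subfield ℂ) {ι : Type} (x : ι → ℂ) (f : MvPolynomial ι k) :
    aeval x f = eval x (map (algebraMap k ℂ) f) := by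
  rw [eval_map, aeval_def]

private lemma map_hc (k : Subfield ℂ) {ι : Type} (i : ℕ) (f : MvPolynomial ι k) :
    map (algebraMap k ℂ) (homogeneousComponent i f) =
      homogeneousComponent i (map (algebraMap k ℂ) f) := by
  ext d
  rw [coeff_map, coeff_homogeneousComponent, coeff_homogeneousComponent, coeff_map]
  split_ifs with h
  · rfl
  · exact map_zero _

private lemma tdeg_map (k : Subfield ℂ) {ι : Type} (f : MvPolynomial ι k) :
    (map (algebraMap k ℂ) f).totalDegree = f.totalDegree := by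
  rw [totalDegree, totalDegree, support_map_of_injective f (algebraMap k ℂ).injective]

/-- the restriction to `x_0 = 0` -/
private noncomputable def r0 {m : ℕ} :
    MvPolynomial (Fin (m + 1)) ℂ →ₐ[ℂ] MvPolynomial (Fin m) ℂ :=
  aeval (Fin.cons 0 X : Fin (m + 1) → MvPolynomial (Fin m) ℂ)

private lemma r0_dvd {m : ℕ} (g : MvPolynomial (Fin (m + 1)) ℂ) :
    X 0 ∣ g - rename Fin.succ (r0 g) := by
  induction g using MvPolynomial.induction_on with
  | C a =>
    rw [r0, aeval_C]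
    change X 0 ∣ C a - rename Fin.succ (C a)
    rw [rename_C, sub_self]
    exact dvd_zero _
  | add p q hp hq =>
    rw [map_add, map_add, add_sub_add_comm]
    exact dvd_add hp hq
  | mul_X p j hp =>
    rw [map_mul, map_mul]
    rcases Fin.eq_zero_or_eq_succ j with rfl | ⟨l, rfl⟩
    · have h1 : r0 (X 0 : MvPolynomial (Fin (m + 1)) ℂ) = 0 := by
        rw [r0, aeval_X, Fin.cons_zero]
      rw [h1, map_zero, mul_zero, sub_zero]
      exact dvd_mul_left _ _
    · have h1 : r0 (X l.succ : MvPolynomial (Fin (m + 1)) ℂ) = X l := by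
        rw [r0, aeval_X, Fin.cons_succ]
      rw [h1, rename_X, ← sub_mul]
      exact hp.mul_right _

private lemma r0_zero {m : ℕ} (g : MvPolynomial (Fin (m + 1)) ℂ) (h : r0 g = 0) : X 0 ∣ g := by
  have := r0_dvd g
  rwa [h, map_zero, sub_zero] at this

private lemma r0_eval {m : ℕ} (β : Fin m → ℂ) (g : MvPolynomial (Fin (m + 1)) ℂ) :
    eval β (r0 g) = eval (Fin.cons 0 β : Fin (m + 1) → ℂ) g := by
  induction g using MvPolynomial.induction_on with
  | C a =>
    rw [r0, aeval_C]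
    change eval β (C a) = _
    rw [eval_C, eval_C]
  | add p q hp hq => rw [map_add, map_add, map_add, hp, hq]
  | mul_X p j hp =>
    rw [map_mul, map_mul, map_mul, hp]
    congr 1
    rcases Fin.eq_zero_or_eq_succ j with rfl | ⟨l, rfl⟩
    · rw [r0, aeval_X, Fin.cons_zero, map_zero, eval_X, Fin.cons_zero]
    · rw [r0, aeval_X, Fin.cons_succ, eval_X, eval_X, Fin.cons_succ]

theorem mainR {m : ℕ}
    (P : Ideal (MvPolynomial (Fin (m + 1) ⊕ Fin (m + 1)) ℂ)) (hP : P.IsPrime)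
    (hY : ∀ j : Fin (m + 1), (X (Sum.inr j) : MvPolynomial (Fin (m + 1) ⊕ Fin (m + 1)) ℂ) ∉ P)
    (hdim : Algebra.trdeg ℂ (MvPolynomial (Fin (m + 1) ⊕ Fin (m + 1)) ℂ ⧸ P) = (m + 1 : ℕ))
    (F : MvPolynomial (Fin (m + 1)) ℂ) (hF0 : F ≠ 0)
    (hF : ∀ f : MvPolynomial (Fin (m + 1)) ℂ, rename Sum.inl f ∈ P ↔ F ∣ f)
    (w : Valuation (MvPolynomial (Fin (m + 1) ⊕ Fin (m + 1)) ℂ) (WithZero (Multiplicative ℤ)))
    (hw : ∀ f, w f = 0 ↔ f ∈ P)
    (hwx : ∀ f : MvPolynomial (Fin (m + 1)) ℂ, ¬ F ∣ f → w (rename Sum.inl f) = 1)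
    (v : Fin (m + 1) → ℤ) (hwv : ∀ j, w (X (Sum.inr j)) = WithZero.exp (-(v j)))
    (hv0 : v 0 ≠ 0) (R : MvPolynomial (Fin (m + 1)) ℂ)
    (hL : homogeneousComponent F.totalDegree F = X 0 * R) (hR : ¬ X 0 ∣ R)
    (hnc : ∀ κ : ℂ, ¬ X 0 ∣ homogeneousComponent (F.totalDegree - 1) F - C κ * R)
    (h : MvPolynomial (Fin (m + 1) ⊕ Fin (m + 1)) ℂ) (hh : h ∉ P) :
    ∃ z : Fin (m + 1) → ℂ, (∀ f ∈ P, eval (Sum.elim z fun j => Complex.exp (z j)) f = 0) ∧
      eval (Sum.elim z fun j => Complex.exp (z j)) h ≠ 0 := by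
  classical
  have hd1 : 1 ≤ F.totalDegree := by
    by_contra hcon
    have h0 : F.totalDegree = 0 := by omega
    have h1 := h0
    rw [totalDegree_eq_zero_iff_eq_C] at h1
    rw [h0] at hL
    apply hF0
    have h2 := congrArg (eval (0 : Fin (m + 1) → ℂ)) hL
    rw [homogeneousComponent_zero, eval_C, map_mul, eval_X, Pi.zero_apply, zero_mul] at h2
    rw [h1, h2, C_0]
  obtain ⟨k, hk, p, hC, hp, hx⟩ := exists_generic2 P hP
    (((h.coeffs : Set ℂ) ∪ (F.coeffs : Set ℂ)) ∪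
      ((R.coeffs : Set ℂ) ∪ {Complex.I}))
    (((Finset.countable_toSet _).union (Finset.countable_toSet _)).union
      ((Finset.countable_toSet _).union (Set.countable_singleton _)))
  obtain ⟨h₀, hh₀⟩ := exists_descent k h (fun c hc => hC (Or.inl (Or.inl hc)))
  obtain ⟨F₀, hF₀⟩ := exists_descent k F (fun c hc => hC (Or.inl (Or.inr hc)))
  obtain ⟨R₀, hR₀⟩ := exists_descent k R (fun c hc => hC (Or.inr (Or.inl hc)))
  have hinj : Function.Injective (map (algebraMap k ℂ) :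
      MvPolynomial (Fin (m + 1)) k → MvPolynomial (Fin (m + 1)) ℂ) :=
    map_injective _ (algebraMap k ℂ).injective
  have hpe : Sum.elim (fun j => p (Sum.inl j)) (fun j => p (Sum.inr j)) = p := by
    funext i
    rcases i with i | i <;> rfl
  have hb : ∀ j, p (Sum.inr j) ≠ 0 := by
    intro j h0
    apply hY j
    have h2 := (hp (X (Sum.inr j))).1 (by rw [aeval_X, h0])
    rwa [map_X] at h2
  have hk0 : F₀ ≠ 0 := by
    rintro rfl
    rw [map_zero] at hF₀
    exact hF0 hF₀.symm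
  have hker : ∀ f : MvPolynomial (Fin (m + 1)) k,
      aeval (fun j => p (Sum.inl j)) f = 0 ↔ F₀ ∣ f := by
    intro f
    have h1 : aeval (fun j => p (Sum.inl j)) f = aeval p (rename Sum.inl f) := by
      rw [aeval_rename]
      rfl
    rw [h1, hp, map_rename, hF, ← hF₀]
    exact ⟨dvd_of_map k F₀ f, fun h2 => map_dvd (map (algebraMap k ℂ)) h2⟩
  have htd := td_of_trdeg P hP k hk p hp hx (m + 1) hdim
  have htdeg : F₀.totalDegree = F.totalDegree := by rw [← tdeg_map, hF₀]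
  have hL₀ : homogeneousComponent F₀.totalDegree F₀ = X 0 * R₀ := by
    apply hinj
    rw [map_mul, map_hc, htdeg, hF₀, map_X, hR₀, hL]
  -- the real point
  have hR'0 : r0 R ≠ 0 := fun h0 => hR (r0_zero R h0)
  obtain ⟨β', hβ'R, hβ'⟩ := exists_beta k hk
    (-(r0 (homogeneousComponent (F.totalDegree - 1) F))) (r0 R) hR'0 (by
      intro c hc
      apply hnc (-c)
      apply r0_zero
      have h1 : r0 (C (-c) * R) = -(C c * r0 R) := by
        rw [map_mul]
        have h2 : r0 (C (-c) : MvPolynomial (Fin (m + 1)) ℂ) = C (-c) := by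
          rw [r0, aeval_C]
          rfl
        rw [h2, map_neg, neg_mul]
      rw [map_sub, h1, ← hc]
      ring)
  obtain ⟨β, hβ⟩ : ∃ β : Fin (m + 1) → ℝ, β = Fin.cons 0 β' := ⟨_, rfl⟩
  have hβ0 : β 0 = 0 := by rw [hβ, Fin.cons_zero]
  have hβs : ∀ j : Fin m, β j.succ = β' j := fun j => by rw [hβ, Fin.cons_succ]
  have hβC : (fun j => (β j : ℂ)) = (Fin.cons 0 (fun j => (β' j : ℂ)) : Fin (m + 1) → ℂ) := by
    funext j
    rcases Fin.eq_zero_or_eq_succ j with rfl | ⟨l, rfl⟩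
    · rw [Fin.cons_zero, hβ0, Complex.ofReal_zero]
    · rw [Fin.cons_succ, hβs]
  have hr0e : ∀ g : MvPolynomial (Fin (m + 1)) ℂ,
      eval (fun j => (β j : ℂ)) g = eval (fun j => (β' j : ℂ)) (r0 g) := by
    intro g
    rw [r0_eval, hβC]
  have hμe : aeval (fun j => (β j : ℂ)) R₀ = eval (fun j => (β' j : ℂ)) (r0 R) := by
    rw [aeval_eq, hR₀, hr0e]
  -- independence of `a_1, .., a_m`
  have hdeg : 0 < degreeOf 0 F := by
    refine EXP.degreeOf_pos_of_top F (X 0) R hF0 ?_ hL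
    rw [degreeOf_X, if_pos rfl]
    exact one_pos
  have ha : AlgebraicIndependent k (fun j : Fin m => p (Sum.inl j.succ)) := by
    rw [algebraicIndependent_iff]
    intro f hf
    by_contra hf0
    have h1 : aeval (fun j => p (Sum.inl j)) (rename Fin.succ f) = 0 := by
      rw [aeval_rename]
      exact hf
    have h2 := (hker _).1 h1
    have h3 : F ∣ rename Fin.succ (map (algebraMap k ℂ) f) := by
      rw [← hF₀, ← map_rename]
      exact map_dvd (map (algebraMap k ℂ)) h2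
    refine EXP.not_dvd_rename F hdeg (map (algebraMap k ℂ) f) ?_ h3
    intro h4
    apply hf0
    exact map_injective _ (algebraMap k ℂ).injective (by rw [h4, map_zero])
  have hfib : ∀ x : Fin (m + 1) → ℂ, AlgebraicIndependent k (fun j : Fin m => x j.succ) →
      aeval x F₀ = 0 → ∃ Q : Ideal (MvPolynomial (Fin (m + 1)) ℂ), Q.IsPrime ∧
      (∀ j : Fin (m + 1), (X j : MvPolynomial (Fin (m + 1)) ℂ) ∉ Q) ∧
      Algebra.trdeg ℂ (MvPolynomial (Fin (m + 1)) ℂ ⧸ Q) = 1 ∧
      (∀ e : ℂ, (X 0 - C e : MvPolynomial (Fin (m + 1)) ℂ) ∉ Q) ∧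
      ∀ w : Fin (m + 1) → ℂ, (∀ g ∈ Q, eval w g = 0) →
        Spec k (Sum.elim (fun j => p (Sum.inl j)) (fun j => p (Sum.inr j))) (Sum.elim x w) := by
    intro x hx' hxF
    obtain ⟨Q, hQ, hQY, hQd, hQe, hQw⟩ := fibre_curveZ P hP hY hdim F hF0 hF w hw hwx v hwv
      0 hv0 k hk p hp hx x (by
        intro f
        rw [hker f]
        exact gen_zero k F₀ hk0 (fun j => p (Sum.inl j)) hker ha x hx' hxF f)
    refine ⟨Q, hQ, hQY, hQd, hQe, ?_⟩
    intro w hw
    rw [hpe]
    intro f hf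
    rw [aeval_eq]
    exact hQw w hw _ ((hp f).1 hf)
  obtain ⟨x, hsp, hne⟩ := coreR k hk (fun j => p (Sum.inl j)) (fun j => p (Sum.inr j)) hb F₀
    ((hker F₀).2 dvd_rfl) (by rw [hpe]; exact htd) hfib F₀.totalDegree (by rw [htdeg]; exact hd1)
    (fun i => homogeneousComponent i F₀) (fun i => homogeneousComponent_isHomogeneous i F₀)
    (sum_homogeneousComponent F₀).symm β hβ0 (aeval (fun j => (β j : ℂ)) R₀)
    (by rw [hμe]; exact hβ'R)
    (by
      show aeval (fun j => (β j : ℂ)) (homogeneousComponent F₀.totalDegree F₀) = 0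
      rw [hL₀, map_mul, aeval_X, hβ0, Complex.ofReal_zero, zero_mul])
    (by
      intro j
      show aeval (fun j => (β j : ℂ)) (pderiv j (homogeneousComponent F₀.totalDegree F₀)) = _
      rw [hL₀, Derivation.leibniz, map_add, smul_eq_mul, smul_eq_mul, map_mul, map_mul, aeval_X,
        hβ0, Complex.ofReal_zero, zero_mul, zero_add, pderiv_X]
      by_cases hj : j = 0
      · subst hj
        rw [Pi.single_eq_same, Pi.single_eq_same, map_one, Complex.ofReal_one]
      · rw [Pi.single_eq_of_ne (Ne.symm hj), Pi.single_eq_of_ne hj, map_zero,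
          Complex.ofReal_zero])
    (eval (fun j => (β' j : ℂ)) (-(r0 (homogeneousComponent (F.totalDegree - 1) F))) /
      eval (fun j => (β' j : ℂ)) (r0 R))
    (by
      show _ = -(aeval (fun j => (β j : ℂ)) (homogeneousComponent (F₀.totalDegree - 1) F₀) /
        aeval (fun j => (β j : ℂ)) R₀)
      rw [hμe, aeval_eq, map_hc, htdeg, hF₀, hr0e, map_neg, neg_div])
    (by
      simp only [hβs]
      exact hβ')
    h₀ (by
      rw [hpe]
      intro h0
      exact hh (hh₀ ▸ (hp h₀).1 h0))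
  rw [hpe] at hsp
  refine ⟨x, ?_, ?_⟩
  · exact hx _ fun f hf => hsp f ((hp f).2 hf)
  · rw [← hh₀, ← aeval_eq]
    exact hne

end Pool.Agent.EXR
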