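import Pool.Agent.EXR.FinR
import Pool.Agent.EXR.LatR
import Pool.Agent.EXZ.ChV
import Pool.Agent.EXZ.FinZ

/-!
# EXR / FinR2: the theorem for an integer linear factor

PROOF.  `e ≠ 0`, `a ≠ 0` (otherwise `L = 0`). `prim_row`: `a = g B_0`. `change_vars` for `B`: `F' = F(B' x)`; `∑ a_j (B' x)_j = g x_0`, so the leading form
of `F'` is `(e g) X 0 * R(B' x)` `= X 0 * R''`, `R'' = C (e g) * R(B' x)`. `homogeneousComponent` commutes with the substitution (`sub_comp` in
EXZ/FinZ, private: copy). `hnc` and `hGR` are transported (`κ' = κ / (e g)`). `v' 0 = ∑ B 0 j v_j = (∑ a_j v_j) / g ≠ 0`. `mainR`.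
-/

set_option autoImplicit false

namespace Pool.Agent.EXR

open MvPolynomial

/-- the linear substitution `x ↦ M x` -/
private noncomputable def sub {n : ℕ} (M : Matrix (Fin n) (Fin n) ℤ) :
    MvPolynomial (Fin n) ℂ →ₐ[ℂ] MvPolynomial (Fin n) ℂ :=
  aeval (fun i => ∑ j, (M i j : ℂ) • (X j : MvPolynomial (Fin n) ℂ))

private theorem sub_X {n : ℕ} (M : Matrix (Fin n) (Fin n) ℤ) (i : Fin n) :
    sub M (X i) = ∑ j, (M i j : ℂ) • (X j : MvPolynomial (Fin n) ℂ) := by
  unfold sub
  rw [aeval_X]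

private theorem sub_sub {n : ℕ} (A B : Matrix (Fin n) (Fin n) ℤ) (h : B * A = 1)
    (p : MvPolynomial (Fin n) ℂ) : sub A (sub B p) = p := by
  have h1 : (sub A).comp (sub B) = AlgHom.id ℂ _ := by
    refine MvPolynomial.algHom_ext fun i => ?_
    rw [AlgHom.comp_apply, sub_X, map_sum, AlgHom.id_apply]
    simp only [map_smul, sub_X, Finset.smul_sum, smul_smul]
    rw [Finset.sum_comm]
    simp only [← Finset.sum_smul]
    have h2 : ∀ l, (∑ j, (B i j : ℂ) * (A j l : ℂ)) = if i = l then 1 else 0 := by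
      intro l
      have h3 := congrFun (congrFun h i) l
      rw [Matrix.mul_apply, Matrix.one_apply] at h3
      have h4 := congrArg (fun z : ℤ => (z : ℂ)) h3
      push_cast at h4
      exact h4
    simp only [h2]
    simp
  exact congrArg (fun f : MvPolynomial (Fin n) ℂ →ₐ[ℂ] MvPolynomial (Fin n) ℂ => f p) h1

private theorem sub_eval {n : ℕ} (M : Matrix (Fin n) (Fin n) ℤ) (p : MvPolynomial (Fin n) ℂ)
    (y : Fin n → ℂ) : eval y (sub M p) = eval (fun i => ∑ j, (M i j : ℂ) * y j) p := by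
  have h : (eval y).comp (sub M).toRingHom = eval (fun i => ∑ j, (M i j : ℂ) * y j) := by
    refine MvPolynomial.ringHom_ext ?_ ?_
    · intro r
      simp only [RingHom.comp_apply, AlgHom.toRingHom_eq_coe, RingHom.coe_coe, algHom_C, eval_C]
      rw [algebraMap_eq, eval_C]
    · intro i
      simp only [RingHom.comp_apply, AlgHom.toRingHom_eq_coe, RingHom.coe_coe, sub_X, eval_X,
        map_sum, smul_eval]
  exact congrArg (fun f : MvPolynomial (Fin n) ℂ →+* ℂ => f p) h

private theorem sub_hom {n r : ℕ} (M : Matrix (Fin n) (Fin n) ℤ) {p : MvPolynomial (Fin n) ℂ}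
    (hp : p.IsHomogeneous r) : (sub M p).IsHomogeneous r := by
  have h := hp.aeval (fun i => ∑ j, (M i j : ℂ) • (X j : MvPolynomial (Fin n) ℂ)) (n := 1)
    fun i => IsHomogeneous.sum _ _ _ fun j _ => by
      rw [smul_eq_C_mul]
      exact IsHomogeneous.C_mul (isHomogeneous_X _ _) _
  rwa [one_mul] at h

private theorem sub_deg {n : ℕ} (M : Matrix (Fin n) (Fin n) ℤ) (p : MvPolynomial (Fin n) ℂ) :
    (sub M p).totalDegree ≤ p.totalDegree := by
  conv_lhs => rw [← sum_homogeneousComponent p, map_sum]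
  refine totalDegree_finsetSum_le fun i hi => ?_
  refine (sub_hom M (homogeneousComponent_isHomogeneous i p)).totalDegree_le.trans ?_
  rw [Finset.mem_range] at hi
  omega

private theorem sub_comp {n : ℕ} (M : Matrix (Fin n) (Fin n) ℤ) (p : MvPolynomial (Fin n) ℂ)
    (d : ℕ) : sub M (homogeneousComponent d p) = homogeneousComponent d (sub M p) := by
  classical
  conv_rhs => rw [← sum_homogeneousComponent p, map_sum, map_sum]
  have h1 : ∀ i, homogeneousComponent d (sub M (homogeneousComponent i p))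
      = if d = i then sub M (homogeneousComponent i p) else 0 := fun i =>
    homogeneousComponent_of_mem (sub_hom M (homogeneousComponent_isHomogeneous i p))
  simp only [h1]
  rw [Finset.sum_ite_eq]
  split_ifs with h2
  · rfl
  · rw [Finset.mem_range, not_lt] at h2
    rw [homogeneousComponent_eq_zero _ _ (by omega), map_zero]

private theorem hcomp_ne {n : ℕ} (p : MvPolynomial (Fin n) ℂ) (hp : p ≠ 0) :
    homogeneousComponent p.totalDegree p ≠ 0 := by
  have hne : p.support.Nonempty := support_nonempty.2 hp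
  obtain ⟨s, hs, hsd⟩ := Finset.exists_mem_eq_sup p.support hne (fun s => s.sum fun _ e => e)
  intro h
  have h1 := congrArg (coeff s) h
  rw [coeff_homogeneousComponent, coeff_zero] at h1
  have h2 : s.degree = p.totalDegree := by
    rw [totalDegree, hsd]
    rfl
  rw [if_pos h2] at h1
  exact (mem_support_iff.1 hs) h1


theorem mainR' {n : ℕ} (P : Ideal (MvPolynomial (Fin n ⊕ Fin n) ℂ)) (hP : P.IsPrime)
    (hY : ∀ j : Fin n, (X (Sum.inr j) : MvPolynomial (Fin n ⊕ Fin n) ℂ) ∉ P)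
    (hdim : Algebra.trdeg ℂ (MvPolynomial (Fin n ⊕ Fin n) ℂ ⧸ P) = n)
    (F : MvPolynomial (Fin n) ℂ) (hF0 : F ≠ 0)
    (hF : ∀ f : MvPolynomial (Fin n) ℂ, rename Sum.inl f ∈ P ↔ F ∣ f)
    (w : Valuation (MvPolynomial (Fin n ⊕ Fin n) ℂ) (WithZero (Multiplicative ℤ)))
    (hw : ∀ f, w f = 0 ↔ f ∈ P)
    (hwx : ∀ f : MvPolynomial (Fin n) ℂ, ¬ F ∣ f → w (rename Sum.inl f) = 1)
    (v : Fin n → ℤ) (hwv : ∀ j, w (X (Sum.inr j)) = WithZero.exp (-(v j)))
    (e : ℂ) (a : Fin n → ℤ) (G R : MvPolynomial (Fin n) ℂ)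
    (hG : G = C e * ∑ j, (a j : ℂ) • (X j : MvPolynomial (Fin n) ℂ))
    (hL : homogeneousComponent F.totalDegree F = G * R) (hGR : ¬ G ∣ R)
    (hnc : ∀ κ : ℂ, ¬ G ∣ homogeneousComponent (F.totalDegree - 1) F - C κ * R)
    (hv : ∑ j, a j * v j ≠ 0)
    (h : MvPolynomial (Fin n ⊕ Fin n) ℂ) (hh : h ∉ P) :
    ∃ z : Fin n → ℂ, (∀ f ∈ P, eval (Sum.elim z fun j => Complex.exp (z j)) f = 0) ∧
      eval (Sum.elim z fun j => Complex.exp (z j)) h ≠ 0 := by
  have hL0 := hcomp_ne F hF0
  have he : e ≠ 0 := by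
    rintro rfl
    rw [C_0, zero_mul] at hG
    rw [hG, zero_mul] at hL
    exact hL0 hL
  have ha : a ≠ 0 := by
    rintro rfl
    apply hv
    simp
  obtain ⟨m, rfl⟩ : ∃ m, n = m + 1 := by
    rcases Nat.eq_zero_or_pos n with h0 | h0
    · subst h0
      exact absurd (Subsingleton.elim a 0) ha
    · exact ⟨n - 1, by omega⟩
  obtain ⟨g, B, B', hg, hBB', haB⟩ := prim_row a ha
  have hB'B : B' * B = 1 := mul_eq_one_comm.mp hBB'
  obtain ⟨P', w', hP', hY', hdim', hF', hw', hwx', hwv', hback⟩ :=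
    EXZ.change_vars B B' hBB' P hP hY hdim F hF w hw hwx v hwv
  have hinv : ∀ p : MvPolynomial (Fin (m + 1)) ℂ, sub B (sub B' p) = p := sub_sub B B' hB'B
  have hinv' : ∀ p : MvPolynomial (Fin (m + 1)) ℂ, sub B' (sub B p) = p := sub_sub B' B hBB'
  have hF0' : sub B' F ≠ 0 := by
    intro h0
    apply hF0
    rw [← hinv F, h0, map_zero]
  have hdeg : (sub B' F).totalDegree = F.totalDegree := by
    refine le_antisymm (sub_deg B' F) ?_
    have := sub_deg B (sub B' F)
    rwa [hinv] at this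
  have heg : e * (g : ℂ) ≠ 0 := mul_ne_zero he (by exact_mod_cast hg)
  have hGs : sub B' G = C (e * (g : ℂ)) * X 0 := by
    rw [hG, map_mul, map_sum]
    have h1 : sub B' (C e) = C e := by
      rw [← algebraMap_eq, AlgHom.commutes]
    rw [h1, C_mul, mul_assoc]
    congr 1
    simp only [map_smul, sub_X, Finset.smul_sum, smul_smul]
    rw [Finset.sum_comm]
    simp only [← Finset.sum_smul]
    have h2 : ∀ l, (∑ j, (a j : ℂ) * (B' j l : ℂ)) = if 0 = l then (g : ℂ) else 0 := by
      intro l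
      have h3 := congrFun (congrFun hBB' 0) l
      rw [Matrix.mul_apply, Matrix.one_apply] at h3
      have h4 : (∑ j, a j * B' j l) = g * (if 0 = l then 1 else 0) := by
        rw [← h3, Finset.mul_sum]
        exact Finset.sum_congr rfl fun j _ => by rw [haB]; ring
      have h5 := congrArg (fun z : ℤ => (z : ℂ)) h4
      push_cast at h5
      rw [h5]
      split_ifs <;> simp
    simp only [h2]
    simp [smul_eq_C_mul]
  have hdvd : ∀ q : MvPolynomial (Fin (m + 1)) ℂ, X 0 ∣ sub B' q → G ∣ q := by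
    intro q hq
    have h1 : sub B' G ∣ sub B' q := by
      rw [hGs]
      have hu : IsUnit (C (e * (g : ℂ)) : MvPolynomial (Fin (m + 1)) ℂ) :=
        (isUnit_iff_ne_zero.mpr heg).map C
      rw [hu.mul_left_dvd]
      exact hq
    have h2 := map_dvd (sub B) h1
    rwa [hinv, hinv] at h2
  refine hback (fun h' hh' => ?_) h hh
  refine mainR P' hP' hY' hdim' (sub B' F) hF0' hF' w' hw' hwx' _ hwv' ?_
    (C (e * (g : ℂ)) * sub B' R) ?_ ?_ ?_ h' hh'
  · intro h0
    apply hv
    have h1 : ∑ j, a j * v j = g * ∑ j, B 0 j * v j := by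
      rw [Finset.mul_sum]
      exact Finset.sum_congr rfl fun j _ => by rw [haB]; ring
    rw [h1, h0, mul_zero]
  · rw [hdeg, ← sub_comp, hL, map_mul, hGs]
    ring
  · intro hd
    apply hGR
    apply hdvd
    have hu : IsUnit (C (e * (g : ℂ)) : MvPolynomial (Fin (m + 1)) ℂ) :=
      (isUnit_iff_ne_zero.mpr heg).map C
    rwa [hu.dvd_mul_left] at hd
  · intro κ hd
    apply hnc (κ * (e * (g : ℂ)))
    apply hdvd
    have h1 : sub B' (homogeneousComponent (F.totalDegree - 1) F - C (κ * (e * (g : ℂ))) * R) =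
        homogeneousComponent ((sub B' F).totalDegree - 1) (sub B' F) -
          C κ * (C (e * (g : ℂ)) * sub B' R) := by
      rw [map_sub, map_mul, sub_comp, hdeg]
      have h2 : sub B' (C (κ * (e * (g : ℂ)))) = C (κ * (e * (g : ℂ))) := by
        rw [← algebraMap_eq, AlgHom.commutes]
      rw [h2, C_mul (a := κ), mul_assoc]
    rw [h1]
    exact hd

end Pool.Agent.EXR
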