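import Pool.Agent.EXZ.Defs
import Pool.Agent.EXI.CDefs

/-!
# EXR / GoodR: goodness of a constant

PROOF.  `N = ∑_e a_e(X') Z^e`, `D = max deg a_e`, `ν T = T^{-D}`, `N'(z) = ∑_{e : deg a_e = D} a_e^top(I β) (ζ z)^e`. For `‖x - I T β‖ ≤ √T`:
`T^{-D} a_e(x) → a_e^top(I β)` (resp. `0`) uniformly. `N'(1) ≠ 0` because `∑_e a_e^top(X') Z^e ≠ 0` and `(ζ, I β)` is algebraically
independent (the substitution `x ↦ I T β`: `a^top(I T β) = T^D a^top(I β)`). `‖ν T‖ ≤ 1 = T^0`.
(As `EXG.lim`, `EXZ.lim1`.)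
-/

set_option autoImplicit false

namespace Pool.Agent.EXR

open MvPolynomial Pool.Agent.EXI Pool.Agent.EXZ Topology Filter

private noncomputable def scal {k : Subfield ℂ} {m : ℕ} (a : MvPolynomial (Fin m) k) (τ : ℂ)
    (z : Fin m → ℂ) : ℂ :=
  ∑ s ∈ a.support, (algebraMap k ℂ (coeff s a)) * τ ^ (a.totalDegree - s.degree) * ∏ j, z j ^ s j

private theorem scal_cont {k : Subfield ℂ} {m : ℕ} (a : MvPolynomial (Fin m) k) :
    Continuous (fun p : ℂ × (Fin m → ℂ) => scal a p.1 p.2) := by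
  unfold scal
  fun_prop

private theorem deg_le {k : Subfield ℂ} {m : ℕ} {a : MvPolynomial (Fin m) k} {s : Fin m →₀ ℕ}
    (hs : s ∈ a.support) : s.degree ≤ a.totalDegree := by
  have h := le_totalDegree hs
  exact h

private theorem scal_inv {k : Subfield ℂ} {m : ℕ} (a : MvPolynomial (Fin m) k) {T : ℂ}
    (_hT : T ≠ 0) (x : Fin m → ℂ) :
    scal a T⁻¹ (fun j => x j / T) = (T ^ a.totalDegree)⁻¹ * aeval x a := by
  rw [aeval_def, eval₂_eq', Finset.mul_sum]
  unfold scal
  refine Finset.sum_congr rfl fun s hs => ?_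
  have h1 := deg_le hs
  have h2 : ∏ j, (x j / T) ^ s j = (∏ j, x j ^ s j) * (T ^ s.degree)⁻¹ := by
    simp_rw [div_pow]
    rw [Finset.prod_div_distrib, Finset.prod_pow_eq_pow_sum, Finsupp.degree_eq_sum,
      div_eq_mul_inv]
  have h3 : T ^ a.totalDegree = T ^ (a.totalDegree - s.degree) * T ^ s.degree := by
    rw [← pow_add, Nat.sub_add_cancel h1]
  rw [h2, h3, mul_inv, inv_pow]
  ring

private theorem scal_zero {k : Subfield ℂ} {m : ℕ} (a : MvPolynomial (Fin m) k) (z : Fin m → ℂ) :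
    scal a 0 z = aeval z (homogeneousComponent a.totalDegree a) := by
  classical
  rw [homogeneousComponent_apply, map_sum, Finset.sum_filter]
  unfold scal
  refine Finset.sum_congr rfl fun s hs => ?_
  have h1 := deg_le hs
  by_cases h : s.degree = a.totalDegree
  · rw [if_pos h, h, Nat.sub_self, pow_zero, mul_one, aeval_monomial]
    congr 1
    rw [Finsupp.prod_fintype]
    intro i
    rw [pow_zero]
  · rw [if_neg h, zero_pow (by omega), mul_zero, zero_mul]

private theorem top_ne {k : Subfield ℂ} {m : ℕ} {a : MvPolynomial (Fin m) k} (ha : a ≠ 0) :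
    homogeneousComponent a.totalDegree a ≠ 0 := by
  have hne : a.support.Nonempty := support_nonempty.2 ha
  obtain ⟨s, hs, hsd⟩ := Finset.exists_mem_eq_sup a.support hne (fun s => s.sum fun _ e => e)
  intro h
  have h1 := congrArg (coeff s) h
  rw [coeff_homogeneousComponent, coeff_zero] at h1
  have h2 : s.degree = a.totalDegree := by
    rw [totalDegree, hsd]
    rfl
  rw [if_pos h2] at h1
  exact (mem_support_iff.1 hs) h1

private theorem conv0 {m : ℕ} (k : Subfield ℂ) (β : Fin m → ℝ) (a : MvPolynomial (Fin m) k)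
    (ε : ℝ) (hε : 0 < ε) :
    ∀ᶠ T : ℕ in atTop, ∀ x : Fin m → ℂ,
      (∀ j, ‖x j - Complex.I * (T : ℂ) * (β j : ℂ)‖ ≤ √(T : ℝ)) →
      ‖((T : ℂ) ^ a.totalDegree)⁻¹ * aeval x a -
        scal a 0 (fun j => Complex.I * (β j : ℂ))‖ ≤ ε := by
  set z₀ : Fin m → ℂ := fun j => Complex.I * (β j : ℂ) with hz₀
  have hcont := (scal_cont a).continuousAt (x := ((0 : ℂ), z₀))
  rw [Metric.continuousAt_iff] at hcont
  obtain ⟨δ, hδ, hd⟩ := hcont ε hε
  have h1 : ∀ᶠ T : ℕ in atTop, 1 / δ < √(T : ℝ) :=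
    (Real.tendsto_sqrt_atTop.comp tendsto_natCast_atTop_atTop).eventually_gt_atTop (1 / δ)
  filter_upwards [h1, eventually_ge_atTop 1] with T hT1 hT2 x hx
  have hT : (1 : ℝ) ≤ T := by exact_mod_cast hT2
  have hT0 : (0 : ℝ) < T := by linarith
  have hTc : (T : ℂ) ≠ 0 := by exact_mod_cast hT0.ne'
  have hs1 : 1 ≤ √(T : ℝ) := Real.one_le_sqrt.2 hT
  have hs2 : √(T : ℝ) * √(T : ℝ) = T := Real.mul_self_sqrt hT0.le
  have hsd : 1 / √(T : ℝ) < δ := by
    rw [div_lt_iff₀ (by linarith)]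
    rw [div_lt_iff₀ hδ] at hT1
    linarith
  have hdist : dist (((T : ℂ)⁻¹, fun j => x j / (T : ℂ)) : ℂ × (Fin m → ℂ)) ((0 : ℂ), z₀) < δ := by
    rw [Prod.dist_eq, max_lt_iff]
    constructor
    · simp only [dist_zero_right, norm_inv, Complex.norm_natCast]
      refine lt_of_le_of_lt ?_ hsd
      rw [one_div]
      apply inv_anti₀ (by linarith)
      nlinarith
    · rw [dist_pi_lt_iff hδ]
      intro j
      rw [dist_eq_norm]
      have h2 : x j / (T : ℂ) - z₀ j = (x j - Complex.I * (T : ℂ) * (β j : ℂ)) / (T : ℂ) := by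
        rw [hz₀]
        field_simp
      rw [h2, norm_div, Complex.norm_natCast]
      refine lt_of_le_of_lt (div_le_div_of_nonneg_right (hx j) hT0.le) ?_
      refine lt_of_le_of_lt (le_of_eq ?_) hsd
      rw [div_eq_div_iff hT0.ne' (by linarith), one_mul]
      exact hs2
  have h3 := hd hdist
  simp only at h3
  rw [scal_inv a hTc x, dist_eq_norm] at h3
  exact h3.le

private theorem conv2 {m : ℕ} (k : Subfield ℂ) (β : Fin m → ℝ) (a : MvPolynomial (Fin m) k)
    (D : ℕ) (hD : a.totalDegree ≤ D) (ε : ℝ) (hε : 0 < ε) :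
    ∀ᶠ T : ℕ in atTop, ∀ x : Fin m → ℂ,
      (∀ j, ‖x j - Complex.I * (T : ℂ) * (β j : ℂ)‖ ≤ √(T : ℝ)) →
      ‖((T : ℂ) ^ D)⁻¹ * aeval x a -
        (if a.totalDegree = D then scal a 0 (fun j => Complex.I * (β j : ℂ)) else 0)‖ ≤ ε := by
  by_cases h : a.totalDegree = D
  · rw [if_pos h]
    have := conv0 k β a ε hε
    rw [h] at this
    exact this
  · rw [if_neg h]
    set L := ‖scal a 0 (fun j => Complex.I * (β j : ℂ))‖ with hL
    have hL0 : 0 ≤ L := norm_nonneg _
    filter_upwards [conv0 k β a 1 one_pos, eventually_ge_atTop 1,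
      tendsto_natCast_atTop_atTop.eventually_ge_atTop ((L + 1) / ε)] with T hT1 hT2 hT3 x hx
    have hT : (1 : ℝ) ≤ T := by exact_mod_cast hT2
    have hT0 : (0 : ℝ) < T := by linarith
    have hTc : (T : ℂ) ≠ 0 := by exact_mod_cast hT0.ne'
    have h1 := hT1 x hx
    have h2 : ‖((T : ℂ) ^ a.totalDegree)⁻¹ * aeval x a‖ ≤ L + 1 := by
      have h3 := norm_sub_norm_le (((T : ℂ) ^ a.totalDegree)⁻¹ * aeval x a)
        (scal a 0 (fun j => Complex.I * (β j : ℂ)))
      linarith
    obtain ⟨d, hd⟩ : ∃ d, D = a.totalDegree + (d + 1) := ⟨D - a.totalDegree - 1, by omega⟩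
    have h4 : ((T : ℂ) ^ D)⁻¹ * aeval x a - 0 =
        ((T : ℂ) ^ (d + 1))⁻¹ * (((T : ℂ) ^ a.totalDegree)⁻¹ * aeval x a) := by
      rw [hd, pow_add, mul_inv]
      ring
    rw [h4, norm_mul, norm_inv, norm_pow, Complex.norm_natCast]
    have h5 : ((T : ℝ) ^ (d + 1))⁻¹ ≤ (T : ℝ)⁻¹ := by
      apply inv_anti₀ hT0
      calc (T : ℝ) = 1 * T := (one_mul _).symm
        _ ≤ (T : ℝ) ^ d * T := by
          apply mul_le_mul_of_nonneg_right (one_le_pow₀ hT) hT0.le
        _ = (T : ℝ) ^ (d + 1) := (pow_succ _ _).symm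
    calc ((T : ℝ) ^ (d + 1))⁻¹ * ‖((T : ℂ) ^ a.totalDegree)⁻¹ * aeval x a‖
        ≤ (T : ℝ)⁻¹ * (L + 1) := mul_le_mul h5 h2 (norm_nonneg _) (inv_nonneg.2 hT0.le)
      _ ≤ ε := by
        rw [inv_mul_le_iff₀ hT0]
        rw [div_le_iff₀ hε] at hT3
        exact hT3

private theorem split_eval {k : Subfield ℂ} {m : ℕ} {κ : Type} (N : MvPolynomial (Fin m ⊕ κ) k)
    (x : Fin m → ℂ) (y : κ → ℂ) :
    aeval (Sum.elim x y) N =
      eval₂ (aeval x : MvPolynomial (Fin m) k →ₐ[k] ℂ).toRingHom y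
        (sumAlgEquiv k κ (Fin m) (rename Sum.swap N)) := by
  induction N using MvPolynomial.induction_on with
  | C a =>
    rw [rename_C, sumAlgEquiv_C_inl, eval₂_C, aeval_C]
    simp
  | add p q hp hq => rw [map_add, map_add, map_add, eval₂_add, hp, hq]
  | mul_X p i hp =>
    rw [map_mul, map_mul, map_mul, eval₂_mul, hp, aeval_X, rename_X]
    congr 1
    rcases i with j | l
    · simp [sumAlgEquiv_X_inr]
    · simp [sumAlgEquiv_X_inl]

private theorem opt_some {k : Subfield ℂ} {m : ℕ} (a : MvPolynomial (Fin m) k) :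
    optionEquivLeft k (Fin m) (rename some a) = Polynomial.C a := by
  induction a using MvPolynomial.induction_on with
  | C a => rw [rename_C, optionEquivLeft_C]
  | add p q hp hq => rw [map_add, map_add, hp, hq, map_add]
  | mul_X p i hp => rw [map_mul, map_mul, hp, rename_X, optionEquivLeft_X_some, map_mul]

theorem good_const {m : ℕ} (k : Subfield ℂ) (β : Fin m → ℝ) (𝒰 : Ultrafilter ℕ)
    (h𝒰 : (𝒰 : Filter ℕ) ≤ atTop) (ζ : ℂ)
    (hζ : AlgebraicIndependent k
      (cons ζ (fun j => Complex.I * (β j : ℂ)) : Option (Fin m) → ℂ)) :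
    Good k β 𝒰 (fun _ => ζ) 1 := by
  classical
  intro N hN
  set z₀ : Fin m → ℂ := fun j => Complex.I * (β j : ℂ) with hz₀
  set P := sumAlgEquiv k Unit (Fin m) (rename Sum.swap N) with hP
  have hP0 : P ≠ 0 := by
    rw [hP]
    rw [Ne, map_eq_zero_iff _ (sumAlgEquiv k Unit (Fin m)).injective,
      map_eq_zero_iff _ (rename_injective _ Sum.swap_leftInverse.injective)]
    exact hN
  have hE : P.support.Nonempty := support_nonempty.2 hP0
  obtain ⟨e₁, he₁, hmax⟩ := Finset.exists_max_image P.support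
    (fun e => (coeff e P).totalDegree) hE
  set D := (coeff e₁ P).totalDegree with hD
  set L : (Unit →₀ ℕ) → ℂ := fun e =>
    if (coeff e P).totalDegree = D then scal (coeff e P) 0 z₀ else 0 with hL
  set N' : Polynomial ℂ := ∑ e ∈ P.support, Polynomial.monomial (e ()) (L e * ζ ^ e ()) with hN'
  have h1 : ∀ᶠ T : ℕ in (𝒰 : Filter ℕ), 1 ≤ T := h𝒰 (eventually_ge_atTop 1)
  -- the polynomial of the top forms
  set tp : (Unit →₀ ℕ) → MvPolynomial (Fin m) k := fun e =>
    if (coeff e P).totalDegree = D then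
      homogeneousComponent (coeff e P).totalDegree (coeff e P) else 0 with htp
  set Q : MvPolynomial (Option (Fin m)) k :=
    ∑ e ∈ P.support, rename some (tp e) * X none ^ e () with hQ
  have hQ0 : Q ≠ 0 := by
    intro h
    have h2 := congrArg (fun q => Polynomial.coeff (optionEquivLeft k (Fin m) q) (e₁ ())) h
    simp only [hQ, map_sum, map_mul, map_pow, opt_some, optionEquivLeft_X_none,
      Polynomial.finsetSum_coeff, map_zero, Polynomial.coeff_zero,
      Polynomial.coeff_C_mul_X_pow] at h2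
    have h3 : ∑ e ∈ P.support, (if e₁ () = e () then tp e else 0) =
        ∑ e ∈ P.support, (if e = e₁ then tp e else 0) := by
      refine Finset.sum_congr rfl fun e _ => ?_
      have h4 : e₁ () = e () ↔ e = e₁ := by
        constructor
        · intro h5
          ext
          exact h5.symm
        · intro h5
          rw [h5]
      simp only [h4]
    rw [h3, Finset.sum_ite_eq' P.support e₁ tp, if_pos he₁, htp] at h2
    simp only [← hD, if_true] at h2
    exact top_ne (mem_support_iff.1 he₁) h2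
  have hQ1 : aeval (cons ζ z₀ : Option (Fin m) → ℂ) Q ≠ 0 := fun h =>
    hQ0 ((map_eq_zero_iff _ hζ).1 h)
  have hev1 : N'.eval 1 = aeval (cons ζ z₀ : Option (Fin m) → ℂ) Q := by
    rw [hN', hQ, Polynomial.eval_finsetSum, map_sum]
    refine Finset.sum_congr rfl fun e _ => ?_
    rw [Polynomial.eval_monomial, one_pow, mul_one,
      map_mul (aeval (cons ζ z₀ : Option (Fin m) → ℂ)),
      map_pow (aeval (cons ζ z₀ : Option (Fin m) → ℂ)), aeval_X, aeval_rename]
    have h5 : (cons ζ z₀ : Option (Fin m) → ℂ) ∘ some = z₀ := rfl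
    have h6 : (cons ζ z₀ : Option (Fin m) → ℂ) none = ζ := rfl
    rw [h5, h6]
    congr 1
    simp only [hL, htp]
    split_ifs with h7
    · exact scal_zero _ _
    · rw [map_zero]
  refine ⟨fun T => ((T : ℂ) ^ D)⁻¹, N', ?_, ?_, ?_, ?_⟩
  · filter_upwards [h1] with T hT
    have hTc : (T : ℂ) ≠ 0 := by
      have : T ≠ 0 := by omega
      exact_mod_cast this
    exact inv_ne_zero (pow_ne_zero _ hTc)
  · rw [hev1]
    exact hQ1
  · intro C _
    refine ⟨0, ?_⟩
    filter_upwards [h1] with T hT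
    have hT' : (1 : ℝ) ≤ T := by exact_mod_cast hT
    rw [Real.rpow_zero, norm_inv, norm_pow, Complex.norm_natCast]
    exact inv_le_one_of_one_le₀ (one_le_pow₀ hT')
  intro R δ hδ
  set B : ℝ := ∑ e ∈ P.support, (‖ζ‖ * |R|) ^ e () + 1 with hB
  have hBe : ∀ e ∈ P.support, (‖ζ‖ * |R|) ^ e () ≤ B := by
    intro e he
    have h2 := Finset.single_le_sum (f := fun e : Unit →₀ ℕ => (‖ζ‖ * |R|) ^ e ())
      (fun e _ => by positivity) he
    linarith
  have hB0 : 0 < B := by
    have : 0 ≤ ∑ e ∈ P.support, (‖ζ‖ * |R|) ^ e () :=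
      Finset.sum_nonneg fun e _ => by positivity
    linarith
  set ε : ℝ := δ / (((P.support.card : ℝ) + 1) * B) with hε
  have hε0 : 0 < ε := by positivity
  have ha1 : ∀ᶠ T : ℕ in (𝒰 : Filter ℕ), ∀ e ∈ P.support, ∀ x : Fin m → ℂ,
      (∀ j, ‖x j - Complex.I * (T : ℂ) * (β j : ℂ)‖ ≤ √(T : ℝ)) →
        ‖((T : ℂ) ^ D)⁻¹ * aeval x (coeff e P) - L e‖ ≤ ε := by
    rw [Filter.eventually_all_finset]
    intro e he
    exact h𝒰 (conv2 k β (coeff e P) D (hmax e he) ε hε0)
  filter_upwards [ha1] with T hA1 x z hx hz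
  have e1 : ((T : ℂ) ^ D)⁻¹ * aeval (Sum.elim x fun _ => ζ * z) N - N'.eval z =
      ∑ e ∈ P.support, (((T : ℂ) ^ D)⁻¹ * aeval x (coeff e P) - L e) * (ζ * z) ^ e () := by
    rw [split_eval, ← hP, eval₂_eq', hN', Polynomial.eval_finsetSum, Finset.mul_sum,
      ← Finset.sum_sub_distrib]
    refine Finset.sum_congr rfl fun e _ => ?_
    rw [Polynomial.eval_monomial]
    simp only [mul_pow, Finset.univ_unique, Finset.prod_singleton, PUnit.default_eq_unit]
    have h5 : (aeval x : MvPolynomial (Fin m) k →ₐ[k] ℂ).toRingHom (coeff e P) =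
      aeval x (coeff e P) := rfl
    rw [h5]
    ring
  rw [e1]
  have hterm : ∀ e ∈ P.support,
      ‖(((T : ℂ) ^ D)⁻¹ * aeval x (coeff e P) - L e) * (ζ * z) ^ e ()‖ ≤ ε * B := by
    intro e he
    rw [norm_mul]
    apply mul_le_mul (hA1 e he x hx) _ (norm_nonneg _) hε0.le
    rw [norm_pow, norm_mul]
    refine (pow_le_pow_left₀ (by positivity) ?_ _).trans (hBe e he)
    exact mul_le_mul_of_nonneg_left (hz.trans (le_abs_self R)) (norm_nonneg _)
  refine (norm_sum_le _ _).trans ((Finset.sum_le_sum hterm).trans ?_)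
  rw [Finset.sum_const, nsmul_eq_mul, hε]
  have hn : (0 : ℝ) ≤ P.support.card := Nat.cast_nonneg _
  have h9 : (P.support.card : ℝ) * (δ / (((P.support.card : ℝ) + 1) * B) * B) =
      δ * ((P.support.card : ℝ) / ((P.support.card : ℝ) + 1)) := by
    field_simp
  rw [h9]
  apply mul_le_of_le_one_right hδ.le
  rw [div_le_one (by linarith)]
  linarith

end Pool.Agent.EXR
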