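import Pool.Agent.EXR.GoodR
import Pool.Agent.EXZ.GoodA
import Pool.Agent.EXZ.PairG
import Pool.Agent.EXZ.BddO
import Pool.Agent.EXZ.Lift
import Pool.Agent.EXG.PrimA
import Pool.Agent.EXG.PrimB

/-!
# EXR / SelR: points of the fibres with `y_0 = ζ`

PROOF.  As `EXZ.sel_ptZ` (SelZ on main), but without level / bdd / exists_s: `good_const`. For `𝒰`-almost all `T`: `Q_T`. `hind` for `i = 0`
(`exists_pair1`: otherwise `N ≠ 0` with `N(x', y_0) = 0` on `V`; for the `Q_T`: `N(x'_T, Y_0)` vanishes on the zeros of `Q_T`, it is a nonzero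
polynomial in `Y_0` (`good_ne`: not zero at `ζ`), so `X 0` is constant on `Tz Q_T`: against `X 0 - C e ∉ Q`; or: it vanishes at the lifted point).
`exists_prim`: `pr`; `Dl(x'_T, ζ) ≠ 0` (`good_ne`). `lift_pt` with `N = 1`, `ι = fun _ => 0`, `w' = fun _ => ζ`: a polynomial in `Y_0` in `Q_T` is zero
(it splits, no factor is in `Q_T`). `w_T`. `b' T = w_T` for these `T`, `ζ` resp. `1` for the others. `good_low` (`z = 1`), `bdd_other` for `P 0 j`,
`good_ne`, `pair_good` (`w = 1`, `P 0 j`).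
-/

set_option autoImplicit false

namespace Pool.Agent.EXR

open MvPolynomial Pool.Agent.EXL Pool.Agent.EXI Pool.Agent.EXG Pool.Agent.EXZ Topology Filter

private lemma sr_ns {n : ℕ} (Q : Ideal (MvPolynomial (Fin n) ℂ)) (hQ : Q.IsPrime)
    (G : MvPolynomial (Fin n) ℂ) (h : ∀ w : Fin n → ℂ, (∀ g ∈ Q, eval w g = 0) → eval w G = 0) :
    G ∈ Q := by
  have h1 := MvPolynomial.IsPrime.vanishingIdeal_zeroLocus (K := ℂ) Q
  rw [← h1, mem_vanishingIdeal_iff]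
  intro w hw
  rw [mem_zeroLocus_iff] at hw
  have h2 := h w fun g hg => by
    have := hw g hg
    rwa [aeval_eq_eval] at this
  rwa [aeval_eq_eval]

/-- `w` is a point of the projected fibre over `x` -/
private def Rp (k : Subfield ℂ) {m N : ℕ} (a b x : Fin (m + 1) → ℂ) (ι : Fin N → Fin (m + 1))
    (w : Fin N → ℂ) : Prop :=
  (∀ l, w l ≠ 0) ∧ ∃ Q : Ideal (MvPolynomial (Fin (m + 1)) ℂ), Q.IsPrime ∧
    (∀ w : Fin (m + 1) → ℂ, (∀ g ∈ Q, eval w g = 0) → Spec k (Sum.elim a b) (Sum.elim x w)) ∧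
    ∀ f : MvPolynomial (Fin N) ℂ, rename ι f ∈ Q → eval w f = 0

private lemma rp_rel {k : Subfield ℂ} {m N : ℕ} {a b x : Fin (m + 1) → ℂ}
    {ι : Fin N → Fin (m + 1)} {w : Fin N → ℂ} (hw : Rp k a b x ι w) {τ : Type}
    (s : τ → Fin N) (p : MvPolynomial (Fin m ⊕ τ) k)
    (hp : ∀ x y : Fin (m + 1) → ℂ, Spec k (Sum.elim a b) (Sum.elim x y) →
      aeval (Sum.elim (fun j : Fin m => x j.succ) fun o => y (ι (s o))) p = 0) :
    aeval (Sum.elim (fun j : Fin m => x j.succ) fun o => w (s o)) p = 0 := by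
  obtain ⟨-, Q, hQ, hQs, hQw⟩ := hw
  have hev : ∀ {n : ℕ} (v : Fin n → ℂ) (r : τ → Fin n), eval v ((aeval (Sum.elim
      (fun j : Fin m => C (x j.succ)) fun o => X (r o)) : MvPolynomial (Fin m ⊕ τ) k →ₐ[k]
        MvPolynomial (Fin n) ℂ) p) = aeval (Sum.elim (fun j : Fin m => x j.succ)
          fun o => v (r o)) p := by
    intro n v r
    have h1 : (eval v).comp (aeval (Sum.elim
        (fun j : Fin m => C (x j.succ)) fun o => X (r o)) : MvPolynomial (Fin m ⊕ τ) k →ₐ[k]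
          MvPolynomial (Fin n) ℂ).toRingHom = (aeval (Sum.elim (fun j : Fin m => x j.succ)
            fun o => v (r o)) : MvPolynomial (Fin m ⊕ τ) k →ₐ[k] ℂ).toRingHom := by
      apply MvPolynomial.ringHom_ext
      · intro c
        show (eval v) (aeval _ (C c)) = aeval _ (C c)
        rw [aeval_C, aeval_C]
        show eval v (C (c : ℂ)) = (c : ℂ)
        exact eval_C _
      · intro o
        show (eval v) (aeval _ (X o)) = aeval _ (X o)
        rw [aeval_X, aeval_X]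
        rcases o with o | o
        · exact eval_C _
        · exact eval_X _
    exact congrArg (fun g : MvPolynomial (Fin m ⊕ τ) k →+* ℂ => g p) h1
  set f : MvPolynomial (Fin N) ℂ := (aeval (Sum.elim
      (fun j : Fin m => C (x j.succ)) fun o => X (s o)) : MvPolynomial (Fin m ⊕ τ) k →ₐ[k]
        MvPolynomial (Fin N) ℂ) p with hf
  have h1 : eval w f = 0 := by
    refine hQw f (sr_ns Q hQ _ fun v hv => ?_)
    rw [eval_rename, hf, hev]
    exact hp x v (hQs v hv)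
  rw [← hev w s]
  exact h1

private lemma sr_choice {α : Type} (P : ℕ → α → Prop) (Q : α → Prop) (d : α) (hd : Q d)
    (hPQ : ∀ T w, P T w → Q w) : ∃ f : ℕ → α, ∀ T, Q (f T) ∧ ((∃ w, P T w) → P T (f T)) := by
  have h : ∀ T, ∃ v, Q v ∧ ((∃ w, P T w) → P T v) := by
    intro T
    by_cases h : ∃ w, P T w
    · obtain ⟨w, hw⟩ := h
      exact ⟨w, hPQ T w hw, fun _ => hw⟩
    · exact ⟨d, hd, fun h' => absurd h' h⟩
  choose f hf using h
  exact ⟨f, hf⟩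

/-- a polynomial in `(x', z)` as a polynomial in the other index type -/
private noncomputable def conv (k : Subfield ℂ) {m : ℕ} (p : MvPolynomial (Option (Fin m)) k) :
    MvPolynomial (Fin m ⊕ Unit) k :=
  rename (fun o : Option (Fin m) => o.elim (Sum.inr ()) Sum.inl) p

private lemma conv_ne (k : Subfield ℂ) {m : ℕ} (p : MvPolynomial (Option (Fin m)) k)
    (hp : p ≠ 0) : conv k p ≠ 0 := by
  intro h
  refine hp (rename_injective (fun o : Option (Fin m) => o.elim (Sum.inr ()) Sum.inl) ?_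
    (h.trans (map_zero _).symm))
  intro o o' h
  cases o with
  | none =>
    cases o' with
    | none => rfl
    | some j => exact absurd h (by simp)
  | some i =>
    cases o' with
    | none => exact absurd h (by simp)
    | some j =>
      have : i = j := by simpa using h
      rw [this]

private lemma conv_eval (k : Subfield ℂ) {m : ℕ} (p : MvPolynomial (Option (Fin m)) k)
    (x : Fin m → ℂ) (z : ℂ) :
    aeval (Sum.elim x fun _ => z) (conv k p) = aeval (cons z x : Option (Fin m) → ℂ) p := by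
  unfold conv
  rw [aeval_rename]
  congr 1
  congr 1
  funext o
  cases o <;> rfl

/-- a polynomial in `Y_0` in a prime ideal without `Y_0 - e` is zero -/
private lemma sr_zero {m : ℕ} (Q : Ideal (MvPolynomial (Fin (m + 1)) ℂ)) (hQ : Q.IsPrime)
    (h0 : ∀ e : ℂ, (X 0 - C e : MvPolynomial (Fin (m + 1)) ℂ) ∉ Q) :
    ∀ (d : ℕ) (p : Polynomial ℂ), p.natDegree = d →
      Polynomial.aeval (X 0 : MvPolynomial (Fin (m + 1)) ℂ) p ∈ Q → p = 0 := by
  intro d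
  induction d with
  | zero =>
    intro p hd hp
    by_contra hp0
    rw [Polynomial.eq_C_of_natDegree_eq_zero hd] at hp hp0
    have hc : p.coeff 0 ≠ 0 := fun h => hp0 (by rw [h, Polynomial.C_0])
    rw [Polynomial.aeval_C] at hp
    apply hQ.ne_top
    rw [Ideal.eq_top_iff_one]
    have h2 := Q.mul_mem_left (algebraMap ℂ (MvPolynomial (Fin (m + 1)) ℂ) (p.coeff 0)⁻¹) hp
    rwa [← map_mul, inv_mul_cancel₀ hc, map_one] at h2
  | succ d ih =>
    intro p hd hp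
    by_contra hp0
    obtain ⟨e, he⟩ := IsAlgClosed.exists_root p (by
      intro h
      exact Nat.succ_ne_zero d (hd.symm.trans (Polynomial.natDegree_eq_of_degree_eq_some h)))
    obtain ⟨q, hq⟩ := Polynomial.dvd_iff_isRoot.2 he
    have hq0 : q ≠ 0 := by
      rintro rfl
      exact hp0 (by rw [hq, mul_zero])
    have hdq : q.natDegree = d := by
      have h1 : p.natDegree = 1 + q.natDegree := by
        rw [hq, Polynomial.natDegree_mul (Polynomial.X_sub_C_ne_zero e) hq0,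
          Polynomial.natDegree_X_sub_C]
      omega
    have h1 : Polynomial.aeval (X 0 : MvPolynomial (Fin (m + 1)) ℂ) p =
        (X 0 - C e) * Polynomial.aeval (X 0 : MvPolynomial (Fin (m + 1)) ℂ) q := by
      rw [hq, map_mul, map_sub, Polynomial.aeval_X, Polynomial.aeval_C]
      rfl
    rw [h1] at hp
    rcases hQ.mem_or_mem hp with h2 | h2
    · exact h0 e h2
    · exact hq0 (ih q hdq h2)

private lemma sr_one {m : ℕ} (Q : Ideal (MvPolynomial (Fin (m + 1)) ℂ)) (hQ : Q.IsPrime)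
    (h0 : ∀ e : ℂ, (X 0 - C e : MvPolynomial (Fin (m + 1)) ℂ) ∉ Q) (ζ : ℂ)
    (f : MvPolynomial (Fin 1) ℂ) (hf : rename (fun _ : Fin 1 => (0 : Fin (m + 1))) f ∈ Q) :
    eval (fun _ => ζ) f = 0 := by
  have h1 : ∀ {A : Type} [CommRing A] [Algebra ℂ A] (u : A),
      Polynomial.aeval u ((aeval fun _ : Fin 1 => (Polynomial.X : Polynomial ℂ)) f) =
        aeval (fun _ : Fin 1 => u) f := by
    intro A _ _ u
    have h2 : (Polynomial.aeval u).comp (aeval fun _ : Fin 1 => (Polynomial.X : Polynomial ℂ)) =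
        (aeval (fun _ : Fin 1 => u) : MvPolynomial (Fin 1) ℂ →ₐ[ℂ] A) := by
      apply MvPolynomial.algHom_ext
      intro i
      rw [AlgHom.comp_apply, aeval_X, aeval_X, Polynomial.aeval_X]
    exact congrArg (fun g : MvPolynomial (Fin 1) ℂ →ₐ[ℂ] A => g f) h2
  have h3 : rename (fun _ : Fin 1 => (0 : Fin (m + 1))) f =
      Polynomial.aeval (X 0 : MvPolynomial (Fin (m + 1)) ℂ)
        ((aeval fun _ : Fin 1 => (Polynomial.X : Polynomial ℂ)) f) := by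
    rw [h1]
    have h4 : (rename (fun _ : Fin 1 => (0 : Fin (m + 1))) :
        MvPolynomial (Fin 1) ℂ →ₐ[ℂ] MvPolynomial (Fin (m + 1)) ℂ) =
          aeval (fun _ : Fin 1 => (X 0 : MvPolynomial (Fin (m + 1)) ℂ)) := by
      apply MvPolynomial.algHom_ext
      intro i
      rw [rename_X, aeval_X]
    exact congrArg (fun g : MvPolynomial (Fin 1) ℂ →ₐ[ℂ] MvPolynomial (Fin (m + 1)) ℂ => g f) h4
  rw [h3] at hf
  have h4 := sr_zero Q hQ h0 _ _ rfl hf
  have h5 := h1 ζ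
  rw [h4, map_zero, aeval_eq_eval] at h5
  exact h5.symm

theorem sel_ptR (k : Subfield ℂ) (hk : (k : Set ℂ).Countable) {m : ℕ} (a b : Fin (m + 1) → ℂ)
    (hb : ∀ j, b j ≠ 0) (htd : td (k : Set ℂ) (Sum.elim a b) = m + 1)
    (P : Fin (m + 1) → Fin (m + 1) → MvPolynomial (Fin m ⊕ Fin 2) k)
    (hP : ∀ i j, i ≠ j → P i j ≠ 0)
    (hPV : ∀ i j, i ≠ j → ∀ x y : Fin (m + 1) → ℂ, Spec k (Sum.elim a b) (Sum.elim x y) →
      aeval (Sum.elim (fun l : Fin m => x l.succ) ![y i, y j]) (P i j) = 0)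
    (β : Fin m → ℝ) (ζ : ℂ) (hζ0 : ζ ≠ 0)
    (hζ : AlgebraicIndependent k
      (cons ζ (fun j => Complex.I * (β j : ℂ)) : Option (Fin m) → ℂ))
    (𝒰 : Ultrafilter ℕ) (h𝒰 : (𝒰 : Filter ℕ) ≤ atTop) (x : ℕ → Fin (m + 1) → ℂ)
    (hx : ∀ᶠ T : ℕ in (𝒰 : Filter ℕ), ∀ j : Fin m,
      x T j.succ = Complex.I * (T : ℂ) * (β j : ℂ))
    (hfib : ∀ᶠ T : ℕ in (𝒰 : Filter ℕ), ∃ Q : Ideal (MvPolynomial (Fin (m + 1)) ℂ), Q.IsPrime ∧
      (∀ j : Fin (m + 1), (X j : MvPolynomial (Fin (m + 1)) ℂ) ∉ Q) ∧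
      Algebra.trdeg ℂ (MvPolynomial (Fin (m + 1)) ℂ ⧸ Q) = 1 ∧
      (∀ e : ℂ, (X 0 - C e : MvPolynomial (Fin (m + 1)) ℂ) ∉ Q) ∧
      ∀ w : Fin (m + 1) → ℂ, (∀ g ∈ Q, eval w g = 0) →
        Spec k (Sum.elim a b) (Sum.elim (x T) w)) :
    AlgebraicIndependent k (bs 0 a b) ∧ ∃ (b' : ℕ → Fin (m + 1) → ℂ) (C : ℝ),
      (∀ T j, b' T j ≠ 0) ∧ (∀ T, b' T 0 = ζ) ∧
      (∀ᶠ T : ℕ in (𝒰 : Filter ℕ), Spec k (Sum.elim a b) (Sum.elim (x T) (b' T)) ∧
        ∀ j, |Real.log ‖b' T j‖| ≤ C * Real.log T) ∧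
      (∀ N : MvPolynomial (Fin m ⊕ Unit) k, N ≠ 0 → ∃ r : ℝ, 0 < r ∧
        ∀ᶠ T : ℕ in (𝒰 : Filter ℕ), ∀ (x : Fin m → ℂ) (z : ℂ),
          (∀ j, ‖x j - Complex.I * (T : ℂ) * (β j : ℂ)‖ ≤ √(T : ℝ)) →
          ‖z - 1‖ ≤ r → aeval (Sum.elim x fun _ => b' T 0 * z) N ≠ 0) ∧
      (∀ δ : ℝ, 0 < δ → ∃ δ' r : ℝ, 0 < δ' ∧ δ' < δ ∧ 0 < r ∧
        ∀ᶠ T : ℕ in (𝒰 : Filter ℕ), ∀ j, j ≠ 0 → ∀ (x : Fin m → ℂ) (z ζ : ℂ),
          (∀ l, ‖x l - Complex.I * (T : ℂ) * (β l : ℂ)‖ ≤ √(T : ℝ)) →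
          ‖z - 1‖ ≤ r → ‖ζ - 1‖ = δ' →
          aeval (Sum.elim x ![b' T 0 * z, b' T j * ζ]) (P 0 j) ≠ 0) := by
  classical
  have hβ : AlgebraicIndependent k (fun j => Complex.I * (β j : ℂ)) := by
    have h := hζ.comp (fun j : Fin m => (some j : Option (Fin m))) (Option.some_injective _)
    exact h
  have hg : Good k β 𝒰 (fun _ => ζ) 1 := good_const k β 𝒰 h𝒰 ζ hζ
  have h1 : ∀ᶠ T : ℕ in (𝒰 : Filter ℕ), ∃ Q : Ideal (MvPolynomial (Fin (m + 1)) ℂ), Q.IsPrime ∧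
      (∀ w : Fin (m + 1) → ℂ, (∀ g ∈ Q, eval w g = 0) →
        Spec k (Sum.elim a b) (Sum.elim (x T) w)) ∧
      ∀ f : MvPolynomial (Fin 1) ℂ, rename (fun _ : Fin 1 => (0 : Fin (m + 1))) f ∈ Q →
        eval (fun _ : Fin 1 => ζ) f = 0 := by
    filter_upwards [hfib] with T hT
    obtain ⟨Q, hQ, hY, hdim, hk0, hsp⟩ := hT
    exact ⟨Q, hQ, hsp, sr_one Q hQ hk0 ζ⟩
  have hRp : ∀ᶠ T : ℕ in (𝒰 : Filter ℕ),
      Rp k a b (x T) (fun _ : Fin 1 => (0 : Fin (m + 1))) (fun _ : Fin 1 => ζ) := by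
    filter_upwards [h1] with T hT
    exact ⟨fun _ => hζ0, hT⟩
  have hxI : ∀ᶠ T : ℕ in (𝒰 : Filter ℕ), (fun l : Fin m => x T l.succ) =
      fun l => Complex.I * (T : ℂ) * (β l : ℂ) := hx.mono fun T hT => funext hT
  -- nonvanishing at the points
  have hnv : ∀ p : MvPolynomial (Option (Fin m)) k, p ≠ 0 → ∀ᶠ T : ℕ in (𝒰 : Filter ℕ),
      aeval (cons ζ (fun j : Fin m => x T j.succ) : Option (Fin m) → ℂ) p ≠ 0 := by
    intro p hp
    obtain ⟨r, hr, h3⟩ := good_ne k β 𝒰 (fun _ => ζ) _ hg (conv k p) (conv_ne k p hp)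
    filter_upwards [h3, hxI] with T h4 h6
    have h7 := h4 (fun j : Fin m => x T j.succ) 1 (fun j => by
      have h8 : x T j.succ = Complex.I * (T : ℂ) * (β j : ℂ) := congrFun h6 j
      rw [h8, sub_self, norm_zero]
      positivity) (by rw [sub_self, norm_zero]; exact hr.le)
    rw [conv_eval, mul_one] at h7
    exact h7
  have hind : AlgebraicIndependent k (bs 0 a b) := by
    by_contra hni
    obtain ⟨N0, hN0, hN1⟩ := exists_pair1 k a b 0 hni
    obtain ⟨T, h3, h4⟩ := ((hnv N0 hN0).and hRp).exists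
    refine h3 ?_
    have h5 := rp_rel h4 (fun _ : Unit => (0 : Fin 1)) (conv k N0) (fun x y hxy => by
      rw [conv_eval]
      exact hN1 x y hxy)
    rw [conv_eval] at h5
    exact h5
  refine ⟨hind, ?_⟩
  obtain ⟨pr⟩ := exists_prim k a b hb htd 0 hind
  have hlift : ∀ᶠ T : ℕ in (𝒰 : Filter ℕ), ∃ w : Fin (m + 1) → ℂ,
      w 0 = ζ ∧ (∀ j, w j ≠ 0) ∧ Spec k (Sum.elim a b) (Sum.elim (x T) w) := by
    filter_upwards [hnv pr.Dl pr.ne, h1] with T h3 h4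
    obtain ⟨Q, hQ, hQs, hQw⟩ := h4
    obtain ⟨w, hw1, hw2, hw3⟩ := lift_pt pr Q hQ (x T) hQs (fun _ : Fin 1 => (0 : Fin (m + 1))) 0
      rfl (fun _ => ζ) hQw h3
    exact ⟨w, hw1 0, hw2, hw3⟩
  obtain ⟨W, hW⟩ := sr_choice (fun T (w : Fin (m + 1) → ℂ) =>
      w 0 = ζ ∧ (∀ j, w j ≠ 0) ∧ Spec k (Sum.elim a b) (Sum.elim (x T) w))
      (fun w => w 0 = ζ ∧ ∀ j, w j ≠ 0) (fun _ => ζ) ⟨rfl, fun _ => hζ0⟩
      fun T w hw => ⟨hw.1, hw.2.1⟩
  have hW0 : ∀ T, W T 0 = ζ := fun T => (hW T).1.1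
  have hWne : ∀ T j, W T j ≠ 0 := fun T => (hW T).1.2
  have hWev : ∀ᶠ T : ℕ in (𝒰 : Filter ℕ), Spec k (Sum.elim a b) (Sum.elim (x T) (W T)) :=
    hlift.mono fun T hT => ((hW T).2 hT).2.2
  have h3T : ∀ᶠ T : ℕ in (𝒰 : Filter ℕ), 3 ≤ T := h𝒰 (eventually_ge_atTop 3)
  have hlog : ∀ T : ℕ, 3 ≤ T → 1 ≤ Real.log T := by
    intro T hT
    rw [Real.le_log_iff_exp_le (by exact_mod_cast (show 0 < T by omega))]
    have h5 : (3 : ℝ) ≤ T := by exact_mod_cast hT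
    have := Real.exp_one_lt_d9
    linarith
  have hC1 : ∀ᶠ T : ℕ in (𝒰 : Filter ℕ), |Real.log ‖ζ‖| ≤ |Real.log ‖ζ‖| * Real.log T := by
    filter_upwards [h3T] with T hT
    exact le_mul_of_one_le_right (abs_nonneg _) (hlog T hT)
  -- growth
  have hgrow : ∀ j, ∃ C : ℝ, ∀ᶠ T : ℕ in (𝒰 : Filter ℕ),
      |Real.log ‖W T j‖| ≤ C * Real.log T := by
    intro j
    by_cases hj : j = 0
    · subst hj
      refine ⟨|Real.log ‖ζ‖|, hC1.mono fun T hT => ?_⟩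
      rw [hW0]
      exact hT
    · have hlow : ∀ p : MvPolynomial (Fin m ⊕ Unit) k, p ≠ 0 → ∃ K : ℝ,
          ∀ᶠ T : ℕ in (𝒰 : Filter ℕ), (T : ℝ) ^ (-K) ≤
            ‖aeval (Sum.elim (fun l => Complex.I * (T : ℂ) * (β l : ℂ)) fun _ => ζ) p‖ := by
        intro p hp
        obtain ⟨K, hK⟩ := good_low k β 𝒰 h𝒰 (fun _ => ζ) _ hg _ hC1 (fun _ => 1)
          tendsto_const_nhds p hp
        refine ⟨K, hK.mono fun T hT => ?_⟩
        simpa only [mul_one] using hT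
      have hy : ∀ᶠ T : ℕ in (𝒰 : Filter ℕ), ‖ζ‖ ≤ (T : ℝ) ^ |Real.log ‖ζ‖| := by
        filter_upwards [hC1, h3T] with T h4 h6
        have hT0 : (0 : ℝ) < T := by exact_mod_cast (show 0 < T by omega)
        have h8 : Real.log ‖ζ‖ ≤ |Real.log ‖ζ‖| * Real.log T := (le_abs_self _).trans h4
        have h9 : 0 < ‖ζ‖ := norm_pos_iff.2 hζ0
        calc ‖ζ‖ = Real.exp (Real.log ‖ζ‖) := (Real.exp_log h9).symm
          _ ≤ Real.exp (|Real.log ‖ζ‖| * Real.log T) := Real.exp_le_exp.2 h8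
          _ = (T : ℝ) ^ |Real.log ‖ζ‖| := by rw [Real.rpow_def_of_pos hT0, mul_comm]
      obtain ⟨C2, hC2⟩ := bdd_other k β 𝒰 h𝒰 (fun _ => ζ)
        (fun T => W T j) (Eventually.of_forall fun T => hWne T j) hlow _ hy (P 0 j)
        (hP _ _ fun h => hj h.symm) (by
        filter_upwards [hWev, hxI] with T h3 h4
        have h5 := hPV 0 j (fun h => hj h.symm) (x T) (W T) h3
        rw [h4, hW0] at h5
        exact h5)
      exact ⟨C2, hC2⟩
  choose Cj hCj using hgrow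
  refine ⟨W, ∑ j, |Cj j|, hWne, hW0, ?_, ?_, ?_⟩
  · filter_upwards [hWev, eventually_all.2 hCj, h3T] with T g1 g5 g6
    refine ⟨g1, fun j => (g5 j).trans ?_⟩
    have h7 : 0 ≤ Real.log (T : ℝ) := zero_le_one.trans (hlog T g6)
    refine mul_le_mul_of_nonneg_right ?_ h7
    exact (le_abs_self _).trans (Finset.single_le_sum (f := fun j => |Cj j|)
      (fun i _ => abs_nonneg _) (Finset.mem_univ j))
  · intro p hp
    obtain ⟨r, hr, h3⟩ := good_ne k β 𝒰 (fun _ => ζ) _ hg p hp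
    refine ⟨r, hr, h3.mono fun T hT x z hx hz => ?_⟩
    rw [hW0]
    exact hT x z hx hz
  · intro δ hδ
    have hg' : Good k β 𝒰 (fun T => W T 0) 1 := by
      simp only [hW0]
      exact hg
    exact pair_good k β hβ 𝒰 h𝒰 W hWne (fun _ => 1) 0 hg'
      (fun j => P 0 j) (fun j hj => hP _ _ (Ne.symm hj)) δ hδ

end Pool.Agent.EXR
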